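import Pool.Agent.Lib.MP_57bda5_lc.Defs

set_option autoImplicit false

/-!
Closed subsets of groups and functional completeness.
-/

namespace Pool.Agent.Lib.MP_57bda5_lc

theorem eval_eq_lift {G : Type*} [Group G] (ρ : ℕ → G) (w : GWord) :
    w.eval ρ = FreeGroup.lift ρ (FreeGroup.mk w) := by
  induction w with
  | nil => simp [GWord.eval]
  | cons a w ih =>
    obtain ⟨i, b⟩ := a
    cases b <;> simp [GWord.eval, ih]

theorem eval_append {G : Type*} [Group G] (ρ : ℕ → G) (v w : GWord) :
    GWord.eval ρ (v ++ w) = v.eval ρ * w.eval ρ := by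
  rw [eval_eq_lift, eval_eq_lift, eval_eq_lift, ← map_mul, FreeGroup.mul_mk]

theorem eval_inv {G : Type*} [Group G] (ρ : ℕ → G) (w : GWord) :
    w.inv.eval ρ = (w.eval ρ)⁻¹ := by
  induction w with
  | nil => simp [GWord.eval, GWord.inv]
  | cons a w ih =>
    obtain ⟨i, b⟩ := a
    rw [GWord.inv, eval_append, ih]
    cases b <;> simp [GWord.eval]

theorem eval_subst {G : Type*} [Group G] (ρ : ℕ → G) (σ : ℕ → GWord) (w : GWord) :
    (w.subst σ).eval ρ = w.eval (fun i => (σ i).eval ρ) := by
  induction w with
  | nil => simp [GWord.eval, GWord.subst]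
  | cons a w ih =>
    obtain ⟨i, b⟩ := a
    cases b <;> simp [GWord.eval, GWord.subst, eval_append, eval_inv, ih]

/-- A subset of a group is closed under the words of the list `B`. -/
def ClosedUnder {G : Type*} [Group G] (B : List GWord) (R : Set G) : Prop :=
  ∀ b ∈ B, ∀ ρ : ℕ → G, (∀ i, ρ i ∈ R) → b.eval ρ ∈ R

theorem eval_mem_of_expressible {G : Type*} [Group G] {B : List GWord} {R : Set G}
    (hR : ClosedUnder B R) {w : GWord} (hw : Expressible G B w) (ρ : ℕ → G) (hρ : ∀ i, ρ i ∈ R) :
    w.eval ρ ∈ R := by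
  induction hw generalizing ρ with
  | base w hw => exact hR w hw ρ hρ
  | var i => simpa [GWord.eval] using hρ i
  | subst w σ _ _ ih1 ih2 =>
    rw [eval_subst]
    exact ih1 _ (fun i => ih2 i ρ hρ)
  | replace v w _ hvw ih =>
    rw [← hvw ρ]
    exact ih ρ hρ

/-- If some group has a closed subset that is not closed under multiplication, the list is not
functionally complete on it. -/
theorem not_complete_of_closed {G : Type*} [Group G] {B : List GWord} {R : Set G}
    (hR : ClosedUnder B R) {x y : G} (hx : x ∈ R) (hy : y ∈ R) (hxy : x * y ∉ R) :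
    ¬ FunctionallyComplete G B := by
  intro h
  have h1 := eval_mem_of_expressible hR (h [(0, true), (1, true)])
    (fun i => if i = 0 then x else y) (fun i => by by_cases h : i = 0 <;> simp [h, hx, hy])
  apply hxy
  simpa [GWord.eval] using h1

theorem identicallyEqual_of_mk {G : Type*} [Group G] {v w : GWord}
    (h : FreeGroup.mk v = FreeGroup.mk w) : IdenticallyEqual G v w := by
  intro ρ
  rw [eval_eq_lift, eval_eq_lift, h]

theorem mk_of_identicallyEqual {v w : GWord} (h : IdenticallyEqual (FreeGroup ℕ) v w) :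
    FreeGroup.mk v = FreeGroup.mk w := by
  have h1 := h FreeGroup.of
  rw [eval_eq_lift, eval_eq_lift] at h1
  have h2 : (FreeGroup.lift FreeGroup.of : FreeGroup ℕ →* FreeGroup ℕ) = MonoidHom.id _ := by
    ext; simp
  rw [h2] at h1
  exact h1

theorem expressible_of_free {G : Type*} [Group G] {B : List GWord} {w : GWord}
    (h : Expressible (FreeGroup ℕ) B w) : Expressible G B w := by
  induction h with
  | base w hw => exact .base w hw
  | var i => exact .var i
  | subst w σ _ _ ih1 ih2 => exact .subst w σ ih1 ih2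
  | replace v w _ hvw ih =>
    exact .replace v w ih (identicallyEqual_of_mk (mk_of_identicallyEqual hvw))

/-- If every nonempty closed subset of the free group is closed under multiplication and inverses,
the list is functionally complete on every group. -/
theorem complete_of_closed {B : List GWord}
    (h : ∀ R : Set (FreeGroup ℕ), R.Nonempty → ClosedUnder B R →
      (∀ x ∈ R, x⁻¹ ∈ R) ∧ (∀ x ∈ R, ∀ y ∈ R, x * y ∈ R))
    (G : Type*) [Group G] : FunctionallyComplete G B := by
  let R : Set (FreeGroup ℕ) := {g | ∃ w, Expressible (FreeGroup ℕ) B w ∧ FreeGroup.mk w = g}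
  have hof : ∀ i : ℕ, FreeGroup.of i ∈ R := fun i => ⟨[(i, true)], .var i, rfl⟩
  have hR : ClosedUnder B R := by
    intro b hb ρ hρ
    choose σ hσ hσ' using hρ
    refine ⟨b.subst σ, .subst b σ (.base b hb) hσ, ?_⟩
    have h1 : ∀ w : GWord, w.eval (FreeGroup.of : ℕ → FreeGroup ℕ) = FreeGroup.mk w := by
      intro w
      rw [eval_eq_lift]
      have h2 : (FreeGroup.lift FreeGroup.of : FreeGroup ℕ →* FreeGroup ℕ) = MonoidHom.id _ := by
        ext; simp
      rw [h2]; rfl
    rw [← h1, eval_subst]
    congr 1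
    funext i
    rw [h1, hσ' i]
  obtain ⟨hinv, hmul⟩ := h R ⟨_, hof 0⟩ hR
  have hall : ∀ g : FreeGroup ℕ, g ∈ R := by
    intro g
    induction g using FreeGroup.induction_on with
    | C1 =>
      have := hmul _ (hof 0) _ (hinv _ (hof 0))
      simpa using this
    | of i => exact hof i
    | inv_of i _ => exact hinv _ (hof i)
    | mul x y hx hy => exact hmul _ hx _ hy
  intro w
  obtain ⟨w', hw', hmk⟩ := hall (FreeGroup.mk w)
  exact expressible_of_free (.replace w' w hw' (identicallyEqual_of_mk hmk))

/-- Closed subsets can be moved along isomorphisms. -/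
theorem closedUnder_equiv {G H : Type*} [Group G] [Group H] (e : G ≃* H) {B : List GWord}
    {R : Set G} (hR : ClosedUnder B R) : ClosedUnder B (e '' R) := by
  intro b hb ρ hρ
  refine ⟨b.eval (fun i => e.symm (ρ i)), hR b hb _ (fun i => ?_), ?_⟩
  · obtain ⟨g, hg, hgi⟩ := hρ i
    rw [← hgi]
    simpa using hg
  · rw [eval_eq_lift, eval_eq_lift]
    have h2 : (e.toMonoidHom.comp (FreeGroup.lift (fun i => e.symm (ρ i)))) =
        FreeGroup.lift ρ := by
      ext i; simp
    rw [← h2]; rfl

end Pool.Agent.Lib.MP_57bda5_lc
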