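import Pool.Agent.Lib.MP_57bda5_lc.Words

set_option autoImplicit false

/-!
The list of words is computable from the input.
-/

namespace Pool.Agent.Lib.MP_57bda5_lc

theorem computable_replicate {α β : Type} [Primcodable α] [Primcodable β] {f : α → ℕ}
    (hf : Computable f) (b : β) : Computable fun a => List.replicate (f a) b := by
  have h1 : Computable fun n : ℕ => List.replicate n b := by
    have h2 : Primrec fun n : ℕ => List.replicate n b := by
      have h3 : Primrec fun n : ℕ => (Nat.rec (motive := fun _ => List β) [] (fun _ l => b :: l) n) :=
        Primrec.nat_rec₁ [] (Primrec.list_cons.comp (Primrec.const b) Primrec.snd).to₂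
      refine h3.of_eq (fun n => ?_)
      induction n with
      | zero => rfl
      | succ n ih => rw [List.replicate_succ, ← ih]
    exact h2.to_comp
  exact h1.comp hf

theorem computable_startExp {k : ℕ} (ν : ℕ) (i0 : Fin k) (i : WIdx k) :
    Computable fun n : ℕ => startExp ν i0 n i := by
  rcases i with o | i
  · exact Computable.const _
  · by_cases h : i = i0
    · have : (fun n : ℕ => startExp ν i0 n (Sum.inr i)) = fun n => ν * (2 * n + 1) := by
        funext n; simp [startExp, h]
      rw [this]
      exact (Primrec.nat_mul.comp (Primrec.const ν) (Primrec.succ.comp
        (Primrec.nat_mul.comp (Primrec.const 2) Primrec.id))).to_comp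
    · have : (fun n : ℕ => startExp ν i0 n (Sum.inr i)) = fun _ => ν := by
        funext n; simp [startExp, h]
      rw [this]
      exact Computable.const _

theorem computable_startLetter {k : ℕ} (ν : ℕ) (i0 : Fin k) (z w : ℕ) (l : WIdx k × Bool) :
    Computable fun n : ℕ => startLetter ν i0 z w n l := by
  unfold startLetter
  exact Computable.list_append.comp (computable_replicate (computable_startExp ν i0 l.1) _)
    (Computable.list_cons.comp (Computable.const _)
      (computable_replicate (computable_startExp ν i0 l.1) _))

theorem computable_flatMap {α β γ : Type} [Primcodable α] [Primcodable γ] {f : α → β → List γ}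
    (hf : ∀ b, Computable fun a => f a b) (l : List β) :
    Computable fun a => l.flatMap (f a) := by
  induction l with
  | nil => exact Computable.const _
  | cons b l ih =>
    simp only [List.flatMap_cons]
    exact Computable.list_append.comp (hf b) ih

theorem computable_mulWord {k : ℕ} (W : FreeGroup (WIdx k)) (ν : ℕ) (i0 : Fin k) :
    Computable fun n : ℕ => mulWord W ν i0 n := by
  unfold mulWord
  exact Computable.list_append.comp
    (Computable.list_cons.comp (Computable.const _)
      (computable_flatMap (fun l => computable_startLetter ν i0 0 1 l) _))
    (Computable.list_cons.comp (Computable.const _)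
      (computable_flatMap (fun l => computable_startLetter ν i0 1 0 l) _))

theorem computable_wordList {S : ℕ → Prop} (M : Machine S) (W : FreeGroup (WIdx M.k)) (ν : ℕ) :
    Computable fun n : ℕ => wordList M W ν n := by
  unfold wordList
  exact Computable.list_cons.comp (Computable.const _)
    (Computable.list_cons.comp (computable_mulWord W ν M.i0) (Computable.const _))

end Pool.Agent.Lib.MP_57bda5_lc
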