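import Mathlib

set_option autoImplicit false

/-!
Words, expressibility, functional completeness.
-/

namespace Pool.Agent.Lib.MP_57bda5_lc

/-- A word: a finite string over the alphabet of countably many variables `x_0, x_1, ...` and their
formal inverses. The letter `(i, true)` is the variable `x_i`, the letter `(i, false)` is its
formal inverse. Words need not be reduced. -/
abbrev GWord : Type := List (ℕ × Bool)

/-- The value of a word in a group `G` when the variable `x_i` has the value `ρ i`. -/
def GWord.eval {G : Type*} [Group G] (ρ : ℕ → G) : GWord → G
  | [] => 1
  | (i, true) :: w => ρ i * GWord.eval ρ w
  | (i, false) :: w => (ρ i)⁻¹ * GWord.eval ρ w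

/-- The formal inverse of a word. -/
def GWord.inv : GWord → GWord
  | [] => []
  | (i, b) :: w => GWord.inv w ++ [(i, !b)]

/-- Substitution of the words `σ i` for the variables `x_i` in a word. -/
def GWord.subst (σ : ℕ → GWord) : GWord → GWord
  | [] => []
  | (i, true) :: w => σ i ++ GWord.subst σ w
  | (i, false) :: w => GWord.inv (σ i) ++ GWord.subst σ w

/-- Two words are identically equal on `G` if they define the same function on `G`. -/
def IdenticallyEqual (G : Type*) [Group G] (v w : GWord) : Prop :=
  ∀ ρ : ℕ → G, v.eval ρ = w.eval ρ

/-- `Expressible G B A`: the word `A` is expressible on `G` in the words of the list `B`, that is,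
`A` can be produced from the words of `B` and the single variables by finitely many steps:
substituting produced words for variables in a produced word, and replacing a produced word by a
word identically equal to it on `G`. -/
inductive Expressible (G : Type*) [Group G] (B : List GWord) : GWord → Prop
  | base (w : GWord) : w ∈ B → Expressible G B w
  | var (i : ℕ) : Expressible G B [(i, true)]
  | subst (w : GWord) (σ : ℕ → GWord) : Expressible G B w → (∀ i, Expressible G B (σ i)) →
      Expressible G B (w.subst σ)
  | replace (v w : GWord) : Expressible G B v → IdenticallyEqual G v w → Expressible G B w

/-- The list `B` is functionally complete on the group `G`: every word is expressible in `B`. -/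
def FunctionallyComplete (G : Type*) [Group G] (B : List GWord) : Prop :=
  ∀ w : GWord, Expressible G B w

/-- The list `B` is functionally complete on every group (with underlying set in universe `u`). -/
def CompleteOnEveryGroup.{u} (B : List GWord) : Prop :=
  ∀ (G : Type u) [Group G], FunctionallyComplete G B

end Pool.Agent.Lib.MP_57bda5_lc
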