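import Mathlib

/-!
Operators on the `F_2`-space with basis the finite lists of integers, coming from maps
`List ℤ → Option (List ℤ)`.
-/

namespace MP57bda5

/-- the ring of operators -/
abbrev Lam : Type := Module.End (ZMod 2) (List ℤ →₀ ZMod 2)

instance : CharP Lam 2 := by
  refine CharTwo.of_one_ne_zero_of_two_eq_zero ?_ ?_
  · exact one_ne_zero
  · ext l l'
    simp only [LinearMap.comp_apply]
    show ((2 : Lam) (Finsupp.single l 1)) l' = 0
    have : (2 : Lam) = 1 + 1 := by norm_num
    rw [this]
    simp only [LinearMap.add_apply, Module.End.one_apply, Finsupp.add_apply]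
    exact CharTwo.add_self_eq_zero _

/-- the operator of a map with values in `Option` -/
noncomputable def op (f : List ℤ → Option (List ℤ)) : Lam :=
  Finsupp.linearCombination (ZMod 2) (fun l => (f l).elim 0 (fun l' => Finsupp.single l' 1))

lemma op_single (f : List ℤ → Option (List ℤ)) (l : List ℤ) :
    op f (Finsupp.single l 1) = (f l).elim 0 (fun l' => Finsupp.single l' 1) := by
  simp [op, Finsupp.linearCombination_single]

lemma lam_ext {A B : Lam} (h : ∀ l, A (Finsupp.single l 1) = B (Finsupp.single l 1)) : A = B := by
  apply Finsupp.lhom_ext'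
  intro l
  ext1
  simpa using h l

lemma op_mul (f g : List ℤ → Option (List ℤ)) : op f * op g = op (fun l => (g l).bind f) := by
  apply lam_ext
  intro l
  rw [Module.End.mul_apply, op_single, op_single]
  cases h : g l with
  | none => simp
  | some l' => simp [op_single]

lemma op_none : op (fun _ => none) = 0 := by
  apply lam_ext; intro l; simp [op_single]

lemma op_some : op (fun l => some l) = 1 := by
  apply lam_ext; intro l; simp [op_single]

/-- push -/
noncomputable def sOp (i : ℤ) : Lam := op (fun l => some (i :: l))

/-- pop -/
noncomputable def rOp (i : ℤ) : Lam := op (fun l => if l.head? = some i then some l.tail else none)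

/-- shift by `-j` -/
noncomputable def shOp (j : ℤ) : Lam := op (fun l => some (l.map (fun t => t - j)))

lemma rOp_mul_sOp (i j : ℤ) : rOp i * sOp j = if i = j then 1 else 0 := by
  unfold rOp sOp
  rw [op_mul]
  split_ifs with h
  · subst h; simpa using op_some
  · rw [← op_none]
    congr 1; funext l
    simp [Ne.symm h]

lemma shOp_add (i j : ℤ) : shOp (i + j) = shOp i * shOp j := by
  unfold shOp
  rw [op_mul]
  congr 1; funext l
  simp only [Option.bind_some, List.map_map]
  congr 2
  funext t
  simp only [Function.comp]; ring

lemma shOp_zero : shOp 0 = 1 := by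
  unfold shOp
  rw [← op_some]; congr 1; funext l; simp

/-- the shift as a unit -/
noncomputable def shU (j : ℤ) : Lamˣ :=
  ⟨shOp j, shOp (-j), by rw [← shOp_add]; simp [shOp_zero], by rw [← shOp_add]; simp [shOp_zero]⟩

lemma map_shift_back (j : ℤ) (l : List ℤ) :
    (l.map (fun t => t - j)).map (fun t => t - -j) = l := by
  rw [List.map_map]
  conv_rhs => rw [← List.map_id l]
  congr 1
  funext t; simp only [Function.comp, id]; ring

lemma shOp_sOp (j i : ℤ) : shOp (-j) * sOp i * shOp j = sOp (i + j) := by
  unfold shOp sOp
  rw [op_mul, op_mul]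
  congr 1; funext l
  simp only [Option.bind_some, List.map_cons, map_shift_back]
  simp

lemma shOp_rOp (j i : ℤ) : shOp (-j) * rOp i * shOp j = rOp (i + j) := by
  unfold shOp rOp
  rw [op_mul, op_mul]
  congr 1; funext l
  cases l with
  | nil => simp
  | cons a l =>
    by_cases h : a = i + j
    · subst h
      have := map_shift_back j l
      simp only [Option.bind_some, List.map_cons, List.head?_cons, List.tail_cons,
        if_true, add_sub_cancel_right]
      rw [this]
    · have : a - j ≠ i := fun h' => h (by rw [← h']; ring)
      simp [h, this]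

open scoped Classical in
/-- the partial function of the oracle -/
noncomputable def oFun (M : ℕ) (V : List ℤ → Prop) (a : ℤ) (l : List ℤ) : Option (List ℤ) :=
  if M ≤ l.length ∧ V ((l.take M).map (fun t => t - a)) then some (l.drop M) else none

lemma oFun_pos {M : ℕ} {V : List ℤ → Prop} {a : ℤ} {l : List ℤ}
    (h : M ≤ l.length ∧ V ((l.take M).map (fun t => t - a))) :
    oFun M V a l = some (l.drop M) := if_pos h

lemma oFun_neg {M : ℕ} {V : List ℤ → Prop} {a : ℤ} {l : List ℤ}
    (h : ¬ (M ≤ l.length ∧ V ((l.take M).map (fun t => t - a)))) :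
    oFun M V a l = none := if_neg h

/-- The oracle for a set `V` of lists of length `M`, based at `a`: the first `M` entries of the
list are removed; the result is zero unless they form (after a shift by `a`) a list in `V`. -/
noncomputable def oOp (M : ℕ) (V : List ℤ → Prop) (a : ℤ) : Lam := op (oFun M V a)

lemma shOp_oOp (M : ℕ) (V : List ℤ → Prop) (j i : ℤ) :
    shOp (-j) * oOp M V i * shOp j = oOp M V (i + j) := by
  unfold shOp oOp
  rw [op_mul, op_mul]
  congr 1; funext l
  have e : (((l.map (fun t => t - j)).take M).map (fun t => t - i)) =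
      (l.take M).map (fun t => t - (i + j)) := by
    rw [← List.map_take, List.map_map]
    congr 1
    funext t; simp only [Function.comp]; ring
  simp only [Option.bind_some]
  by_cases h : M ≤ l.length ∧ V ((l.take M).map (fun t => t - (i + j)))
  · rw [oFun_pos h, oFun_pos (l := l.map (fun t => t - j)) (by rw [e, List.length_map]; exact h)]
    simp only [Option.bind_some, ← List.map_drop, map_shift_back]
  · rw [oFun_neg h, oFun_neg (l := l.map (fun t => t - j)) (by rw [e, List.length_map]; exact h)]
    rfl

/-- pushing a whole list -/
noncomputable def pushOp (b : List ℤ) : Lam := op (fun l => some (b ++ l))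

lemma pushOp_nil : pushOp [] = 1 := by
  unfold pushOp; simpa using op_some

lemma pushOp_append (b b' : List ℤ) : pushOp (b ++ b') = pushOp b * pushOp b' := by
  unfold pushOp; rw [op_mul]; congr 1; funext l; simp

lemma pushOp_single (i : ℤ) : pushOp [i] = sOp i := rfl

/-- If no extension of the pushed list to length `M` is accepted the composition is zero. -/
lemma oOp_mul_pushOp_eq_zero (M : ℕ) (V : List ℤ → Prop) (a : ℤ) (b : List ℤ)
    (hM : b.length ≤ M)
    (h : ∀ b', (b ++ b').length = M → ¬ V ((b ++ b').map (fun t => t - a))) :
    oOp M V a * pushOp b = 0 := by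
  unfold oOp pushOp
  rw [op_mul, ← op_none]
  congr 1; funext l
  simp only [Option.bind_some]
  rw [oFun_neg]
  rintro ⟨h1, h2⟩
  have : (b ++ l).take M = b ++ l.take (M - b.length) := by
    rw [List.take_append, List.take_of_length_le hM]
  rw [this] at h2
  refine h _ ?_ h2
  simp only [List.length_append, List.length_take] at h1 ⊢
  omega

lemma oOp_mul_pushOp_pos (M : ℕ) (V : List ℤ → Prop) (a : ℤ) (b : List ℤ)
    (hM : b.length = M) (h : V (b.map (fun t => t - a))) :
    oOp M V a * pushOp b = 1 := by
  unfold oOp pushOp
  rw [op_mul, ← op_some]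
  subst hM
  congr 1; funext l
  simp only [Option.bind_some]
  rw [oFun_pos]
  · simp
  · simpa using h

end MP57bda5
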