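import Pool.Agent.Lib.MP_57bda5_lc.Rep
import Pool.Agent.Lib.MP_57bda5_lc.Ops

/-!
The model theorem: an element `x` of finite order and an element `y` such that the conjugates of
the powers of `x` by powers of `y` compute an arbitrary predicate of their indices by a fixed word.
-/

set_option linter.unusedSectionVars false
set_option linter.unusedSimpArgs false

namespace MP57bda5

section perm

variable {m : ℕ} {Λ : Type*} [Ring Λ] [CharP Λ 2] (r s o : ℤ → Λ)

open scoped Classical in
/-- a permutation matrix switched on by a predicate -/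
noncomputable def pf (κ : Asg m → Prop) (σ : Equiv.Perm (ZMod 53)) : Asg m → MG Λ := fun α =>
  if (α.k ≠ 0 ∧ (α.l : ZMod 53) = 1) ∧ κ α then P σ else 1

open scoped Classical in
lemma pf_mem (κ : Asg m → Prop) (hκ : RepZ r s o (fun α : Asg m => if κ α then 1 else 0))
    (σ : Equiv.Perm (ZMod 53)) : pf κ σ ∈ Rep r s o m := by
  have hmul : ∀ σ τ, pf (Λ := Λ) κ (σ * τ) = pf κ σ * pf κ τ := by
    intro σ τ
    funext α
    rw [Pi.mul_apply]
    unfold pf
    split_ifs with h
    · rw [P_mul]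
    · rw [one_mul]
  have hone : pf (Λ := Λ) κ (1 : Equiv.Perm (ZMod 53)) = 1 := by
    funext α
    unfold pf
    rw [P_one]
    simp
  induction σ using Equiv.Perm.swap_induction_on with
  | one => rw [hone]; exact one_mem _
  | swap_mul f x y hxy ih =>
    rw [hmul]
    refine mul_mem ?_ ih
    have e : pf (Λ := Λ) κ (Equiv.swap x y) =
        sgl x y (fun α => if κ α then 1 else 0) * sgl y x (fun α => if κ α then 1 else 0) *
          sgl x y (fun α => if κ α then 1 else 0) := by
      funext α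
      rw [Pi.mul_apply, Pi.mul_apply]
      unfold pf sgl
      by_cases h1 : α.k ≠ 0 ∧ (α.l : ZMod 53) = 1
      · rw [if_pos h1, if_pos h1]
        beta_reduce
        by_cases h2 : κ α
        · rw [if_pos ⟨h1, h2⟩, if_pos h2, P_swap hxy]
        · rw [if_neg (fun h => h2 h.2), if_neg h2, T_zero, T_zero]; simp
      · rw [if_neg h1, if_neg h1, if_neg (fun h => h1 h.1)]; simp
    rw [e]
    exact mul_mem (mul_mem (hκ _ _ hxy) (hκ _ _ hxy.symm)) (hκ _ _ hxy)

/-- multiply the exponent -/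
def pw (q : ℤ) (α : Asg m) : Asg m := ⟨q * α.l, α.k, α.d⟩

lemma pw_idx (q : ℤ) (α : Asg m) (i : ℕ) : (pw q α).idx i = α.idx i := by
  match i with
  | 0 => rfl
  | 1 => rfl
  | 2 => rfl
  | 3 => rfl
  | (j + 4) => rfl

lemma letter_pw (q : ℤ) (i : ℕ) (α : Asg m) :
    letter r s o i (pw q α) = (letter r s o i α) ^ q := by
  rw [letter_zpow]
  unfold letter
  rw [pw_idx]
  unfold pw
  push_cast
  rfl

lemma pw_mem (q : ℤ) {f : Asg m → MG Λ} (hf : f ∈ Rep r s o m) :
    (fun α => f (pw q α)) ∈ Rep r s o m := by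
  obtain ⟨w, rfl⟩ := hf
  have h1 : (FreeGroup.lift (fun i => (letter (m := m) r s o i) ^ q)).range ≤ Rep r s o m := by
    apply FreeGroup.range_lift_le
    rintro _ ⟨i, rfl⟩
    exact zpow_mem (letter_mem r s o i) q
  have h2 : (fun α => (FreeGroup.lift (letter (m := m) r s o)) w (pw q α)) =
      FreeGroup.lift (fun i => (letter (m := m) r s o i) ^ q) w := by
    let Φ : (Asg m → MG Λ) →* (Asg m → MG Λ) :=
      { toFun := fun f α => f (pw q α), map_one' := rfl, map_mul' := fun _ _ => rfl }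
    have : Φ ((FreeGroup.lift (letter (m := m) r s o)) w) =
        FreeGroup.lift (fun i => (letter (m := m) r s o i) ^ q) w := by
      rw [← MonoidHom.comp_apply]
      apply FreeGroup.lift_unique (f := fun i => (letter (m := m) r s o i) ^ q)
      intro i
      rw [MonoidHom.comp_apply, FreeGroup.lift_apply_of]
      funext α
      exact letter_pw r s o q i α
    exact this
  rw [h2]
  exact h1 ⟨w, rfl⟩

lemma prime53 : Nat.Prime 53 := by norm_num

open scoped Classical in
lemma final_mem (κ : Asg m → Prop) (hκ : RepZ r s o (fun α : Asg m => if κ α then 1 else 0))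
    (hk : ∀ α, κ α → α.k ≠ 0) (hpw : ∀ q α, κ (pw q α) ↔ κ α) :
    (fun α : Asg m => if κ α then (gg (α.l : ZMod 53) : MG Λ) else 1) ∈ Rep r s o m := by
  have : Fact (Nat.Prime 53) := ⟨prime53⟩
  have key : ∀ n : ℕ, n < 53 →
      (fun α : Asg m => if (∃ c : ℕ, 1 ≤ c ∧ c ≤ n ∧ (α.l : ZMod 53) = c) ∧ κ α then
        (gg (α.l : ZMod 53) : MG Λ) else 1) ∈ Rep r s o m := by
    intro n
    induction n with
    | zero =>
      intro _
      have : (fun α : Asg m => if (∃ c : ℕ, 1 ≤ c ∧ c ≤ 0 ∧ (α.l : ZMod 53) = c) ∧ κ α then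
        (gg (α.l : ZMod 53) : MG Λ) else 1) = 1 := by
        funext α
        rw [if_neg]
        · rfl
        · rintro ⟨⟨c, h1, h2, _⟩, _⟩; omega
      rw [this]; exact one_mem _
    | succ n ih =>
      intro hn
      have ih' := ih (by omega)
      have hne : ((n + 1 : ℕ) : ZMod 53) ≠ 0 := by
        intro e
        rw [ZMod.natCast_eq_zero_iff] at e
        have := Nat.le_of_dvd (by omega) e
        omega
      set c0 : ZMod 53 := ((n + 1 : ℕ) : ZMod 53) with hc0
      have hf := pow_mem (pw_mem r s o ((c0⁻¹).val : ℤ)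
        (pf_mem r s o κ hκ (Equiv.subRight (1 : ZMod 53)))) (n + 1)
      have := mul_mem ih' hf
      convert this using 1
      funext α
      rw [Pi.mul_apply, Pi.pow_apply]
      unfold pf
      rw [hpw]
      have e1 : ((pw (((c0⁻¹).val : ℕ) : ℤ) α).l : ZMod 53) = c0⁻¹ * (α.l : ZMod 53) := by
        simp [pw]
      have e2 : (pw (((c0⁻¹).val : ℕ) : ℤ) α).k = α.k := rfl
      rw [e1, e2]
      have e3 : c0⁻¹ * (α.l : ZMod 53) = 1 ↔ (α.l : ZMod 53) = c0 := by
        constructor
        · intro h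
          calc (α.l : ZMod 53) = c0 * (c0⁻¹ * (α.l : ZMod 53)) := by
                rw [← mul_assoc, mul_inv_cancel₀ hne, one_mul]
            _ = c0 := by rw [h, mul_one]
        · intro h; rw [h, inv_mul_cancel₀ hne]
      by_cases hκα : κ α
      · have hkα := hk α hκα
        by_cases hl : (α.l : ZMod 53) = c0
        · rw [if_pos ⟨⟨n + 1, by omega, le_refl _, hl⟩, hκα⟩, if_neg, if_pos ⟨⟨hkα, e3.2 hl⟩, hκα⟩,
            one_mul, hl]
          · have := gg_zpow (Λ := Λ) ((n + 1 : ℕ) : ℤ) (1 : ZMod 53)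
            rw [mul_one, Int.cast_natCast, ← hc0] at this
            rw [← this, zpow_natCast]
            rfl
          · rintro ⟨⟨c, h1, h2, h3⟩, _⟩
            rw [hl, hc0, ZMod.natCast_eq_natCast_iff'] at h3
            rw [Nat.mod_eq_of_lt hn, Nat.mod_eq_of_lt (by omega)] at h3
            omega
        · rw [if_neg (show ¬ ((α.k ≠ 0 ∧ c0⁻¹ * (α.l : ZMod 53) = 1) ∧ κ α) from
            fun h => hl (e3.1 h.1.2)), one_pow, mul_one]
          congr 1
          apply propext
          constructor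
          · rintro ⟨⟨c, h1, h2, h3⟩, h4⟩
            refine ⟨⟨c, h1, ?_, h3⟩, h4⟩
            rcases Nat.lt_or_ge n c with h | h
            · exfalso
              have : c = n + 1 := by omega
              subst this
              exact hl h3
            · exact h
          · rintro ⟨⟨c, h1, h2, h3⟩, h4⟩
            exact ⟨⟨c, h1, by omega, h3⟩, h4⟩
      · rw [if_neg (fun h => hκα h.2), if_neg (fun h => hκα h.2), if_neg (fun h => hκα h.2)]
        simp
  have h52 := key 52 (by norm_num)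
  convert h52 using 1
  funext α
  by_cases hκα : κ α
  · rw [if_pos hκα]
    by_cases h0 : (α.l : ZMod 53) = 0
    · rw [h0, gg_zero]; simp
    · rw [if_pos]
      refine ⟨⟨(α.l : ZMod 53).val, ?_, ?_, ?_⟩, hκα⟩
      · rw [Nat.one_le_iff_ne_zero, Ne, ZMod.val_eq_zero]; exact h0
      · have := ZMod.val_lt (α.l : ZMod 53); omega
      · simp
  · rw [if_neg hκα, if_neg (fun h => hκα h.2)]

end perm

section oracle

variable {m : ℕ} (κ : ℤ → (Fin m → ℤ) → Prop)

/-- the lists accepted by the oracle -/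
def VV (b : List ℤ) : Prop :=
  ∃ J : ℤ, J ≠ 0 ∧ ∃ D : Fin m → ℤ, κ J D ∧ b[0]? = some J ∧ b[1]? = some (3 * J) ∧
    ∀ i : Fin m, b[2 + (i : ℕ)]? = some (D i - J)

/-- pushed lists -/
def pre (α : Asg m) (i : ℕ) : List ℤ := (List.range i).map (fun t => α.idx (t + 2))

lemma pre_succ (α : Asg m) (i : ℕ) : pre α (i + 1) = pre α i ++ [α.idx (i + 2)] := by
  simp [pre, List.range_succ]

lemma pre_length (α : Asg m) (i : ℕ) : (pre α i).length = i := by simp [pre]

lemma van (a x y : ℤ) (h : x = a ∨ y - a ≠ 3 * (x - a)) :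
    oOp (m + 2) (VV κ) a * pushOp [x, y] = 0 := by
  apply oOp_mul_pushOp_eq_zero
  · simp
  · rintro b' - ⟨J, _, D, -, h0, h1, -⟩
    simp only [List.cons_append, List.nil_append, List.map_cons] at h0 h1
    have h0' : x - a = J := by simpa using h0
    have h1' : y - a = 3 * J := by simpa using h1
    omega

lemma frame_expand {J : ℤ} (hJ : J ≠ 0) :
    (oOp (m + 2) (VV κ) 0 + oOp (m + 2) (VV κ) J) * ((sOp 0 + sOp (2 * J)) * (sOp 0 + sOp (4 * J))) =
      oOp (m + 2) (VV κ) J * pushOp [2 * J, 4 * J] := by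
  have e : ∀ x y : ℤ, sOp x * sOp y = pushOp [x, y] := by
    intro x y
    rw [← pushOp_single, ← pushOp_single, ← pushOp_append]; rfl
  simp only [add_mul, mul_add, e]
  rw [van κ 0 0 0 (by omega), van κ 0 0 (4 * J) (by omega), van κ 0 (2 * J) 0 (by omega),
    van κ 0 (2 * J) (4 * J) (by omega), van κ J 0 0 (by omega), van κ J 0 (4 * J) (by omega),
    van κ J (2 * J) 0 (by omega)]
  simp

lemma step_expand (hκ : ∀ J D, κ J D → J ≠ 0 ∧ ∀ i, D i ≠ 0) (α : Asg m) (i : ℕ) (h2 : 2 ≤ i)
    (hi : i < m + 2) :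
    (oOp (m + 2) (VV κ) α.k * pushOp (pre α i)) * (sOp 0 + sOp (α.idx (i + 2))) =
      oOp (m + 2) (VV κ) α.k * pushOp (pre α (i + 1)) := by
  rw [pre_succ, mul_add, pushOp_append, pushOp_single, mul_assoc, mul_assoc, ← pushOp_single 0,
    ← pushOp_append, oOp_mul_pushOp_eq_zero, zero_add]
  · simp only [List.length_append, pre_length, List.length_cons, List.length_nil]; omega
  · rintro b' - ⟨J, _, D, hD, h0, h1, h3⟩
    have e0 : (pre α i)[0]? = some (2 * α.k) := by
      simp [pre, List.getElem?_range (show 0 < i by omega), Asg.idx]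
    have h0' : 2 * α.k - α.k = J := by
      rw [List.getElem?_map, List.append_assoc, List.getElem?_append_left (by rw [pre_length]; omega), e0]
        at h0
      simpa using h0
    have hj : i - 2 < m := by omega
    have h4 := h3 ⟨i - 2, hj⟩
    have e4 : 2 + (i - 2) = i := by omega
    simp only [e4] at h4
    rw [List.getElem?_map, List.append_assoc, List.getElem?_append_right (by rw [pre_length]), pre_length,
      Nat.sub_self] at h4
    have h4' : 0 - α.k = D ⟨i - 2, hj⟩ - J := by simpa using h4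
    exact (hκ J D hD).2 ⟨i - 2, hj⟩ (by omega)

open scoped Classical in
lemma full_eval (α : Asg m) (hk : α.k ≠ 0) :
    oOp (m + 2) (VV κ) α.k * pushOp (pre α (m + 2)) = if κ α.k α.d then 1 else 0 := by
  have hget : ∀ i, i < m + 2 → (pre α (m + 2))[i]? = some (α.idx (i + 2)) := by
    intro i hi
    simp [pre, List.getElem?_range hi]
  by_cases h : κ α.k α.d
  · rw [if_pos h]
    apply oOp_mul_pushOp_pos
    · rw [pre_length]
    · refine ⟨α.k, hk, α.d, h, ?_, ?_, ?_⟩
      · rw [List.getElem?_map, hget 0 (by omega)]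
        simp only [Asg.idx, Option.map_some]
        congr 1; ring
      · rw [List.getElem?_map, hget 1 (by omega)]
        simp only [Asg.idx, Option.map_some]
        congr 1; ring
      · intro i
        rw [List.getElem?_map, hget (2 + i) (by omega)]
        have e : 2 + (i : ℕ) + 2 = (i : ℕ) + 4 := by omega
        rw [e]
        simp [Asg.idx]
  · rw [if_neg h]
    apply oOp_mul_pushOp_eq_zero
    · rw [pre_length]
    · rintro b' hb ⟨J, hJ, D, hD, h0, h1, h3⟩
      have hb' : b' = [] := by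
        rw [List.length_append, pre_length] at hb
        exact List.eq_nil_of_length_eq_zero (by omega)
      subst hb'
      rw [List.append_nil] at h0 h1 h3
      rw [List.getElem?_map, hget 0 (by omega)] at h0
      have h0' : 2 * α.k - α.k = J := by simpa [Asg.idx] using h0
      apply h
      have hJ' : α.k = J := by omega
      have hD' : α.d = D := by
        funext i
        have h4 := h3 i
        rw [List.getElem?_map, hget (2 + i) (by omega)] at h4
        have e : 2 + (i : ℕ) + 2 = (i : ℕ) + 4 := by omega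
        rw [e] at h4
        have h4' : α.d i - α.k = D i - J := by simpa [Asg.idx] using h4
        omega
      rw [hJ', hD']; exact hD

open scoped Classical in
lemma RepZ_kappa (hκ : ∀ J D, κ J D → J ≠ 0 ∧ ∀ i, D i ≠ 0) :
    RepZ rOp sOp (oOp (m + 2) (VV κ)) (fun α : Asg m => if κ α.k α.d then 1 else 0) := by
  have hrs := rOp_mul_sOp
  have key : ∀ i, 2 ≤ i → i ≤ m + 2 → RepZ rOp sOp (oOp (m + 2) (VV κ))
      (fun α : Asg m => oOp (m + 2) (VV κ) α.k * pushOp (pre α i)) := by
    intro i hi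
    induction i, hi using Nat.le_induction with
    | base =>
      intro _
      have h1 := RepZ_o (m := m) rOp sOp (oOp (m + 2) (VV κ)) hrs 1
      have h2 := RepZ_s (m := m) rOp sOp (oOp (m + 2) (VV κ)) hrs 2
      have h3 := RepZ_s (m := m) rOp sOp (oOp (m + 2) (VV κ)) hrs 3
      refine RepZ_congr _ _ _ (RepZ_mul _ _ _ h1 (RepZ_mul _ _ _ h2 h3)) ?_
      intro α hα
      exact frame_expand κ hα
    | succ i hi ih =>
      intro hle
      have h1 := ih (by omega)
      have h2 := RepZ_s (m := m) rOp sOp (oOp (m + 2) (VV κ)) hrs (i + 2)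
      refine RepZ_congr _ _ _ (RepZ_mul _ _ _ h1 h2) ?_
      intro α _
      exact step_expand κ hκ α i hi (by omega)
  refine RepZ_congr _ _ _ (key (m + 2) (by omega) le_rfl) ?_
  intro α hα
  exact full_eval κ α hα

end oracle

section group

/-- scalar matrices of the shifts -/
noncomputable def Ysh (j : ℤ) : MG Lam :=
  ⟨Matrix.diagonal (fun _ => shOp j), Matrix.diagonal (fun _ => shOp (-j)),
    by rw [Matrix.diagonal_mul_diagonal]; simp only [← shOp_add, add_neg_cancel, shOp_zero]
       exact Matrix.diagonal_one,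
    by rw [Matrix.diagonal_mul_diagonal]; simp only [← shOp_add, neg_add_cancel, shOp_zero]
       exact Matrix.diagonal_one⟩

lemma Ysh_add (i j : ℤ) : Ysh (i + j) = Ysh i * Ysh j := by
  ext1
  simp only [Ysh, Units.val_mul, Matrix.diagonal_mul_diagonal, shOp_add]

lemma Ysh_zero : Ysh 0 = 1 := by
  ext1
  simp only [Ysh, shOp_zero, Units.val_one]
  exact Matrix.diagonal_one

lemma Ysh_neg (i : ℤ) : Ysh (-i) = (Ysh i)⁻¹ := by
  rw [eq_inv_iff_mul_eq_one, ← Ysh_add, neg_add_cancel, Ysh_zero]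

lemma Ysh_zpow (j : ℤ) : (Ysh 1) ^ j = Ysh j := by
  induction j using Int.induction_on with
  | zero => rw [zpow_zero, Ysh_zero]
  | succ i ih => rw [zpow_add_one, ih, Ysh_add]
  | pred i ih => rw [zpow_sub_one, ih, ← Ysh_neg, ← Ysh_add]; rfl

lemma Ysh_conj_T (j : ℤ) (a b : ZMod 53) (z : Lam) :
    (Ysh j)⁻¹ * T a b z * Ysh j = T a b (shOp (-j) * z * shOp j) := by
  by_cases h : a = b
  · subst h; simp [T]
  · rw [mul_assoc, inv_mul_eq_iff_eq_mul]
    ext1
    rw [Units.val_mul, Units.val_mul, T_val h, T_val h]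
    simp only [Ysh, tm, mul_add, add_mul, mul_one, one_mul]
    have key : Matrix.single a b z * Matrix.diagonal (fun _ => shOp j) =
        Matrix.diagonal (fun _ => shOp j) * Matrix.single a b (shOp (-j) * z * shOp j) := by
      ext1 i k
      rw [Matrix.mul_diagonal, Matrix.diagonal_mul]
      by_cases h1 : a = i
      · by_cases h2 : b = k
        · subst h1; subst h2
          rw [Matrix.single_apply_same, Matrix.single_apply_same, ← mul_assoc, ← mul_assoc,
            ← shOp_add, add_neg_cancel, shOp_zero, one_mul]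
        · rw [Matrix.single_apply_of_ne _ _ _ _ _ (fun h => h2 h.2),
            Matrix.single_apply_of_ne _ _ _ _ _ (fun h => h2 h.2)]
          simp
      · rw [Matrix.single_apply_of_ne _ _ _ _ _ (fun h => h1 h.1),
            Matrix.single_apply_of_ne _ _ _ _ _ (fun h => h1 h.1)]
        simp
    rw [key]

lemma Ysh_comm_P (j : ℤ) (σ : Equiv.Perm (ZMod 53)) : Commute (Ysh j) (P σ) := by
  unfold Commute SemiconjBy
  ext1
  rw [Units.val_mul, Units.val_mul]
  simp only [Ysh, P]
  ext i k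
  rw [Matrix.mul_diagonal, Matrix.diagonal_mul]
  simp only [pmat, Matrix.of_apply]
  split_ifs <;> simp

lemma Ysh_conj_Tl (j : ℤ) (L : List (ZMod 53 × ZMod 53 × Lam)) :
    (Ysh j)⁻¹ * Tl L * Ysh j = Tl (L.map (fun p => (p.1, p.2.1, shOp (-j) * p.2.2 * shOp j))) := by
  induction L with
  | nil => simp [Tl]
  | cons p L ih =>
    have hh : ∀ (p : ZMod 53 × ZMod 53 × Lam) L, Tl (p :: L) = T p.1 p.2.1 p.2.2 * Tl L := by
      intro p L; simp [Tl]
    rw [List.map_cons, hh, hh, ← ih, ← Ysh_conj_T]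
    group

variable {m : ℕ} (κ : ℤ → (Fin m → ℤ) → Prop)

/-- the conjugating elements -/
noncomputable def hl (j : ℤ) : MG Lam :=
  Tl [(0, 46, rOp j), (11, 39, sOp j), (25, 32, oOp (m + 2) (VV κ) j)]

lemma hl_conj (j : ℤ) : (Ysh j)⁻¹ * hl κ 0 * Ysh j = hl κ j := by
  unfold hl
  rw [Ysh_conj_Tl]
  simp only [List.map_cons, List.map_nil, shOp_rOp, shOp_sOp, shOp_oOp, zero_add]

set_option maxRecDepth 100000 in
lemma hl_inv (j : ℤ) : (hl κ j)⁻¹ = hl κ j := by
  apply inv_eq_of_mul_eq_one_right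
  unfold hl
  apply Tl_mul_self
  have : nc [(0, 46), (11, 39), (25, 32)] [(0, 46), (11, 39), (25, 32)] := by decide
  exact this

set_option maxRecDepth 100000 in
lemma hl_mul (j : ℤ) : hl κ 0 * hl κ j = cs rOp sOp (oOp (m + 2) (VV κ)) 0 j := by
  have c1 : Commute (T (0 : ZMod 53) 46 (rOp j) : MG Lam) (T 11 39 (sOp 0)) :=
    T_commute (by decide) (by decide) _ _
  have c2 : Commute (T (0 : ZMod 53) 46 (rOp j) : MG Lam) (T 25 32 (oOp (m + 2) (VV κ) 0)) :=
    T_commute (by decide) (by decide) _ _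
  have c3 : Commute (T (11 : ZMod 53) 39 (sOp j) : MG Lam) (T 25 32 (oOp (m + 2) (VV κ) 0)) :=
    T_commute (by decide) (by decide) _ _
  have e0 : ∀ (a b c : MG Lam), [a, b, c].prod = a * (b * c) := by intro a b c; simp
  unfold hl cs csL Tl
  simp only [List.map_cons, List.map_nil, e0, add_zero]
  rw [← T_add, ← T_add, ← T_add, (c1.symm.mul_left c2.symm).mul_mul_mul_comm,
    c3.symm.mul_mul_mul_comm]

/-- conjugate of `g` by `y ^ j` -/
def conjY {G : Type*} [Group G] (y : G) (j : ℤ) (g : G) : G := y ^ (-j) * g * y ^ j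

/-- the element of finite order -/
noncomputable def xel : MG Lam := (hl κ 0)⁻¹ * gg 1 * hl κ 0

lemma xel_zpow (l : ℤ) : (xel κ) ^ l = (hl κ 0)⁻¹ * gg (l : ZMod 53) * hl κ 0 := by
  have := conj_zpow (i := l) (a := (hl κ 0)⁻¹) (b := gg 1)
  rw [inv_inv] at this
  unfold xel
  rw [this, gg_zpow, mul_one]

lemma conjY_xel (l j : ℤ) :
    conjY (Ysh 1) j ((xel κ) ^ l) = (hl κ j)⁻¹ * gg (l : ZMod 53) * hl κ j := by
  unfold conjY
  rw [Ysh_zpow, Ysh_zpow, xel_zpow, Ysh_neg]
  have h1 := hl_conj κ j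
  have h2 : (Ysh j)⁻¹ * gg (l : ZMod 53) * Ysh j = gg (l : ZMod 53) := by
    unfold gg
    rw [mul_assoc, ← (Ysh_comm_P j _).eq, inv_mul_cancel_left]
  calc (Ysh j)⁻¹ * ((hl κ 0)⁻¹ * gg (l : ZMod 53) * hl κ 0) * Ysh j
      = ((Ysh j)⁻¹ * hl κ 0 * Ysh j)⁻¹ * ((Ysh j)⁻¹ * gg (l : ZMod 53) * Ysh j) *
        ((Ysh j)⁻¹ * hl κ 0 * Ysh j) := by group
    _ = _ := by rw [h1, h2]

lemma letter_eq (i : ℕ) (α : Asg m) : letter rOp sOp (oOp (m + 2) (VV κ)) i α =
    hl κ 0 * conjY (Ysh 1) (α.idx i) ((xel κ) ^ α.l) * (hl κ 0)⁻¹ := by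
  unfold letter
  rw [conjY_xel, ← hl_mul, mul_inv_rev, hl_inv, hl_inv]
  group

end group

section final

/-- letters of the interface -/
def tau (k : ℕ) : ℕ → Option (Fin 3) ⊕ Fin k
  | 0 => Sum.inl none
  | 1 => Sum.inl (some 0)
  | 2 => Sum.inl (some 1)
  | 3 => Sum.inl (some 2)
  | (j + 4) => if h : j < k then Sum.inr ⟨j, h⟩ else Sum.inl none

lemma tau_eval {k : ℕ} {G : Type*} [Group G] (y : G) (g : G) (α : Asg k) (i : ℕ) :
    (Sum.elim (fun o : Option (Fin 3) => conjY y (o.elim 0 (fun i => α.k * (2 : ℤ) ^ (i : ℕ))) g)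
      (fun i : Fin k => conjY y (α.d i) g)) (tau k i) = conjY y (α.idx i) g := by
  match i with
  | 0 => rfl
  | 1 => simp [tau, Asg.idx]
  | 2 => simp [tau, Asg.idx, mul_comm]
  | 3 =>
    simp only [tau, Asg.idx, Sum.elim_inl, Option.elim_some]
    norm_num [mul_comm]
  | (j + 4) =>
    simp only [tau, Asg.idx]
    split_ifs with h
    · rfl
    · rfl

lemma gg_one_ne_one : (gg 1 : MG Lam) ≠ 1 := by
  intro h
  have := congrArg (fun M : MG Lam => (M : Matrix (ZMod 53) (ZMod 53) Lam) 0 0) h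
  simp only [gg, P, pmat, Matrix.of_apply, Units.val_one, Matrix.one_apply_eq,
    Equiv.subRight_apply] at this
  rw [if_neg (by decide)] at this
  exact zero_ne_one this

open scoped Classical in
/-- auxiliary version with a predicate which holds somewhere -/
theorem exists_model_aux (k : ℕ) (κ : ℤ → (Fin k → ℤ) → Prop)
    (hκ : ∀ J D, κ J D → J ≠ 0 ∧ ∀ i, D i ≠ 0) :
    ∃ W : FreeGroup (Option (Fin 3) ⊕ Fin k),
      (∀ (H : Type) [Group H] (h : H), FreeGroup.lift (fun _ => h) W = 1) ∧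
      ∀ (l J : ℤ) (D : Fin k → ℤ),
        FreeGroup.lift (Sum.elim
          (fun o : Option (Fin 3) =>
            conjY (Ysh 1) (o.elim 0 (fun i => J * (2 : ℤ) ^ (i : ℕ))) ((xel κ) ^ l))
          (fun i : Fin k => conjY (Ysh 1) (D i) ((xel κ) ^ l))) W =
        if κ J D then (xel κ) ^ l else 1 := by
  have hmem := final_mem rOp sOp (oOp (k + 2) (VV κ)) (fun α : Asg k => κ α.k α.d)
    (RepZ_kappa κ hκ) (fun α h => (hκ _ _ h).1) (fun q α => Iff.rfl)
  obtain ⟨w, hw⟩ := hmem
  -- the evaluation homomorphism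
  set F : ℤ → ℤ → (Fin k → ℤ) → (Option (Fin 3) ⊕ Fin k → MG Lam) := fun l J D => Sum.elim
          (fun o : Option (Fin 3) =>
            conjY (Ysh 1) (o.elim 0 (fun i => J * (2 : ℤ) ^ (i : ℕ))) ((xel κ) ^ l))
          (fun i : Fin k => conjY (Ysh 1) (D i) ((xel κ) ^ l)) with hF
  have hev : ∀ (l J : ℤ) (D : Fin k → ℤ), FreeGroup.lift (F l J D) (FreeGroup.map (tau k) w) =
      if κ J D then (xel κ) ^ l else 1 := by
    intro l J D
    have h1 := congrFun hw ⟨l, J, D⟩
    simp only at h1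
    have h2 : (FreeGroup.lift (letter (m := k) rOp sOp (oOp (k + 2) (VV κ)))) w ⟨l, J, D⟩ =
        hl κ 0 * FreeGroup.lift (F l J D) (FreeGroup.map (tau k) w) * (hl κ 0)⁻¹ := by
      have e1 : (FreeGroup.lift (letter (m := k) rOp sOp (oOp (k + 2) (VV κ)))) w ⟨l, J, D⟩ =
          FreeGroup.lift (fun i => letter (m := k) rOp sOp (oOp (k + 2) (VV κ)) i ⟨l, J, D⟩) w := by
        have := FreeGroup.lift_unique
          (f := fun i => letter (m := k) rOp sOp (oOp (k + 2) (VV κ)) i ⟨l, J, D⟩)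
          ((Pi.evalMonoidHom (fun _ : Asg k => MG Lam) ⟨l, J, D⟩).comp
            (FreeGroup.lift (letter (m := k) rOp sOp (oOp (k + 2) (VV κ))))) (fun i => by simp)
          (x := w)
        exact this
      have e2 : hl κ 0 * FreeGroup.lift (F l J D) (FreeGroup.map (tau k) w) * (hl κ 0)⁻¹ =
          FreeGroup.lift (fun i => letter (m := k) rOp sOp (oOp (k + 2) (VV κ)) i ⟨l, J, D⟩) w := by
        have := FreeGroup.lift_unique
          (f := fun i => letter (m := k) rOp sOp (oOp (k + 2) (VV κ)) i ⟨l, J, D⟩)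
          ((MulAut.conj (hl κ 0)).toMonoidHom.comp
            ((FreeGroup.lift (F l J D)).comp (FreeGroup.map (tau k)))) (fun i => by
              simp only [MonoidHom.comp_apply, FreeGroup.map.of, FreeGroup.lift_apply_of,
                MulEquiv.coe_toMonoidHom, MulAut.conj_apply]
              rw [letter_eq]
              exact congrArg (fun t => hl κ 0 * t * (hl κ 0)⁻¹)
                (tau_eval (Ysh 1) ((xel κ) ^ l) (⟨l, J, D⟩ : Asg k) i))
          (x := w)
        exact this
      rw [e1, e2]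
    rw [h2] at h1
    have h3 : FreeGroup.lift (F l J D) (FreeGroup.map (tau k) w) =
        (hl κ 0)⁻¹ * (if κ J D then (gg (l : ZMod 53) : MG Lam) else 1) * hl κ 0 := by
      rw [← h1]; group
    rw [h3]
    split_ifs
    · rw [xel_zpow]
    · group
  refine ⟨FreeGroup.map (tau k) w *
    (FreeGroup.map (fun _ => Sum.inl none) (FreeGroup.map (tau k) w))⁻¹, ?_, ?_⟩
  · intro H _ h
    rw [map_mul, map_inv, mul_inv_eq_one]
    have := FreeGroup.lift_unique (f := fun _ : Option (Fin 3) ⊕ Fin k => h)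
      ((FreeGroup.lift (fun _ : Option (Fin 3) ⊕ Fin k => h)).comp
        (FreeGroup.map (fun _ => (Sum.inl none : Option (Fin 3) ⊕ Fin k)))) (fun i => by simp)
      (x := FreeGroup.map (tau k) w)
    exact this.symm
  · intro l J D
    rw [map_mul, map_inv]
    have h0 := hev l 0 (fun _ => 0)
    rw [if_neg (fun h => (hκ _ _ h).1 rfl)] at h0
    have h1 : FreeGroup.lift (F l J D) (FreeGroup.map (fun _ => (Sum.inl none : Option (Fin 3) ⊕ Fin k))
        (FreeGroup.map (tau k) w)) = FreeGroup.lift (F l 0 (fun _ => 0)) (FreeGroup.map (tau k) w) := by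
      have := FreeGroup.lift_unique (f := F l 0 (fun _ => 0))
        ((FreeGroup.lift (F l J D)).comp
        (FreeGroup.map (fun _ => (Sum.inl none : Option (Fin 3) ⊕ Fin k)))) (fun i => by
          simp only [MonoidHom.comp_apply, FreeGroup.map.of, FreeGroup.lift_apply_of, hF]
          rcases i with (_ | i) | i <;> simp)
        (x := FreeGroup.map (tau k) w)
      exact this
    rw [h1, h0, inv_one, mul_one]
    exact hev l J D

open scoped Classical in
/-- **The model theorem.** -/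
theorem exists_model (k : ℕ) (κ : ℤ → (Fin k → ℤ) → Prop)
    (hκ : ∀ J D, κ J D → J ≠ 0 ∧ ∀ i, D i ≠ 0) :
    ∃ (G : Type) (_ : Group G) (x y : G) (ν : ℕ) (W : FreeGroup (Option (Fin 3) ⊕ Fin k)),
      0 < ν ∧ x ^ ν = 1 ∧ x * y ≠ y * x ∧
      (∀ (H : Type) [Group H] (h : H), FreeGroup.lift (fun _ => h) W = 1) ∧
      ∀ (l J : ℤ) (D : Fin k → ℤ),
        FreeGroup.lift (Sum.elim
          (fun o : Option (Fin 3) =>
            conjY y (o.elim 0 (fun i => J * (2 : ℤ) ^ (i : ℕ))) (x ^ l))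
          (fun i : Fin k => conjY y (D i) (x ^ l))) W =
        if κ J D then x ^ l else 1 := by
  have hx : ∀ κ : ℤ → (Fin k → ℤ) → Prop, (xel κ) ^ 53 = 1 := by
    intro κ
    have := xel_zpow κ 53
    have e : ((53 : ℤ) : ZMod 53) = 0 := by decide
    rw [e, gg_zero, mul_one, inv_mul_cancel] at this
    exact_mod_cast this
  have hx1 : ∀ κ : ℤ → (Fin k → ℤ) → Prop, xel κ ≠ 1 := by
    intro κ h
    apply gg_one_ne_one
    unfold xel at h
    rw [mul_assoc, inv_mul_eq_one] at h
    have := mul_eq_right.1 h.symm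
    exact this
  have hne : ∀ κ : ℤ → (Fin k → ℤ) → Prop, (∀ J D, κ J D → J ≠ 0 ∧ ∀ i, D i ≠ 0) →
      (∃ J D, κ J D) → xel κ * Ysh 1 ≠ Ysh 1 * xel κ := by
    intro κ hκ ⟨J, D, hJD⟩ hc
    obtain ⟨W, hW1, hW2⟩ := exists_model_aux k κ hκ
    have h := hW2 1 J D
    rw [if_pos hJD, zpow_one] at h
    have hcomm : ∀ j : ℤ, conjY (Ysh 1) j (xel κ) = xel κ := by
      intro j
      have hc' : Commute (xel κ) (Ysh 1) := hc
      unfold conjY
      have h2 := hc'.zpow_right (-j)
      rw [← h2.eq, mul_assoc, ← zpow_add]; simp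
    simp only [hcomm] at h
    have e : (Sum.elim (fun _ : Option (Fin 3) => xel κ) (fun _ : Fin k => xel κ)) =
        fun _ => xel κ := by
      funext i; rcases i with i | i <;> rfl
    rw [e, hW1 (MG Lam) (xel κ)] at h
    exact hx1 κ h.symm
  by_cases hex : ∃ J D, κ J D
  · obtain ⟨W, hW1, hW2⟩ := exists_model_aux k κ hκ
    exact ⟨MG Lam, inferInstance, xel κ, Ysh 1, 53, W, by norm_num, hx κ, hne κ hκ hex, hW1, hW2⟩
  · let κ' : ℤ → (Fin k → ℤ) → Prop := fun J D => J ≠ 0 ∧ ∀ i, D i ≠ 0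
    refine ⟨MG Lam, inferInstance, xel κ', Ysh 1, 53, 1, by norm_num, hx κ',
      hne κ' (fun J D h => h) ⟨1, fun _ => 1, by norm_num, fun _ => by norm_num⟩, ?_, ?_⟩
    · intro H _ h; exact map_one _
    · intro l J D
      rw [map_one, if_neg (fun h => hex ⟨J, D, h⟩)]

end final

end MP57bda5
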