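import Pool.Agent.Lib.MP_57bda5_lc.Undecidable
import Pool.Agent.Lib.MP_57bda5_lc.Model

set_option autoImplicit false

/-!
The model theorem in the form used by the reduction.
-/

namespace Pool.Agent.Lib.MP_57bda5_lc

theorem hasModel (k : ℕ) (κ : ℤ → (Fin k → ℤ) → Prop)
    (hκ : ∀ J D, κ J D → J ≠ 0 ∧ ∀ i, D i ≠ 0) : HasModel k κ := by
  obtain ⟨G, hG, x, y, ν, W, h1, h2, h3, h4, h5⟩ := MP57bda5.exists_model k κ hκ
  refine ⟨G, hG, x, y, ν, W, h1, h2, h3, h4, fun l J D => ⟨fun h => ?_, fun h => ?_⟩⟩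
  · have := h5 l J D
    rw [if_pos h] at this
    exact this
  · have := h5 l J D
    rw [if_neg h] at this
    exact this

end Pool.Agent.Lib.MP_57bda5_lc
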