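import Mathlib

set_option autoImplicit false

/-!
The property of a group needed for the reduction.
-/

namespace Pool.Agent.Lib.MP_57bda5_lc

/-- The conjugate `y ^ (-m) * g * y ^ m`. -/
def conjY {G : Type*} [Group G] (y : G) (m : ℤ) (g : G) : G := y ^ (-m) * g * y ^ m

/-- There is a group with elements `x` (of finite order) and `y` and a word whose values on
conjugates of powers of `x` by powers of `y` are controlled by `κ`. -/
def HasModel (k : ℕ) (κ : ℤ → (Fin k → ℤ) → Prop) : Prop :=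
  ∃ (G : Type) (_ : Group G) (x y : G) (ν : ℕ) (W : FreeGroup (Option (Fin 3) ⊕ Fin k)),
    0 < ν ∧ x ^ ν = 1 ∧ x * y ≠ y * x ∧
    (∀ (H : Type) [Group H] (h : H), FreeGroup.lift (fun _ => h) W = 1) ∧
    ∀ (l J : ℤ) (D : Fin k → ℤ),
      (κ J D → FreeGroup.lift (Sum.elim
        (fun o : Option (Fin 3) => conjY y (o.elim 0 (fun i => J * 2 ^ (i : ℕ))) (x ^ l))
        (fun i => conjY y (D i) (x ^ l))) W = x ^ l) ∧
      (¬ κ J D → FreeGroup.lift (Sum.elim
        (fun o : Option (Fin 3) => conjY y (o.elim 0 (fun i => J * 2 ^ (i : ℕ))) (x ^ l))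
        (fun i => conjY y (D i) (x ^ l))) W = 1)

end Pool.Agent.Lib.MP_57bda5_lc
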