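import Pool.Agent.Lib.MRDP.Quad

set_option autoImplicit false

/-!
A Diophantine set as a reachability problem of a reversible counter system.
-/

namespace Pool.Agent.Lib.MP_57bda5_lc

open Pool.Agent.Lib.MRDP

/-- Affine forms. -/
inductive LinExp (V : Type) : Type
  | zero : LinExp V
  | one : LinExp V
  | var (i : V) : LinExp V
  | add (a b : LinExp V) : LinExp V

/-- Value of an affine form, the constant one having the value `J`. -/
def LinExp.eval {V : Type} (J : ℤ) (c : V → ℤ) : LinExp V → ℤ
  | .zero => 0
  | .one => J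
  | .var i => c i
  | .add a b => a.eval J c + b.eval J c

/-- Renaming of variables. -/
def LinExp.map {V W : Type} (f : V → W) : LinExp V → LinExp W
  | .zero => .zero
  | .one => .one
  | .var i => .var (f i)
  | .add a b => .add (a.map f) (b.map f)

theorem LinExp.eval_map {V W : Type} (f : V → W) (J : ℤ) (c : W → ℤ) (a : LinExp V) :
    (a.map f).eval J c = a.eval J (c ∘ f) := by
  induction a with
  | zero => rfl
  | one => rfl
  | var i => rfl
  | add a b iha ihb => simp [LinExp.map, LinExp.eval, iha, ihb]

theorem LinExp.eval_congr {V : Type} (J : ℤ) {c c' : V → ℤ} (h : ∀ i, c i = c' i) (a : LinExp V) :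
    a.eval J c = a.eval J c' := by
  have : c = c' := funext h
  rw [this]

section GenericMachine

variable {T V : Type}

/-- Coordinates: the input and three counters for each element of `T`. -/
abbrev Coord (T : Type) : Type := Option (T × Fin 3)

/-- The configuration with input `z` and counters `p`, `q`, `p * q`. -/
def conf (z : ℤ) (p q : T → ℤ) : Coord T → ℤ
  | none => z
  | some (s, 0) => p s
  | some (s, 1) => q s
  | some (s, 2) => p s * q s

variable [DecidableEq T]

/-- Right side of the first rule. -/
def ruleP (s : T) : Coord T → LinExp (Coord T) := fun i =>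
  if i = some (s, 0) then .add (.var (some (s, 0))) .one
  else if i = some (s, 2) then .add (.var (some (s, 2))) (.var (some (s, 1)))
  else .var i

/-- Right side of the second rule. -/
def ruleQ (s : T) : Coord T → LinExp (Coord T) := fun i =>
  if i = some (s, 1) then .add (.var (some (s, 1))) .one
  else if i = some (s, 2) then .add (.var (some (s, 2))) (.var (some (s, 0)))
  else .var i

theorem conf_ruleP (z : ℤ) (p q : T → ℤ) (s : T) (i : Coord T) :
    (ruleP s i).eval 1 (conf z p q) = conf z (p + Pi.single s 1) q i := by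
  rcases i with _ | ⟨t, j⟩
  · simp [ruleP, LinExp.eval, conf]
  · by_cases hts : t = s
    · subst hts
      fin_cases j
      · simp [ruleP, LinExp.eval, conf]
      · simp [ruleP, LinExp.eval, conf]
      · simp [ruleP, LinExp.eval, conf]; ring
    · fin_cases j <;> simp [ruleP, LinExp.eval, conf, hts]

theorem conf_ruleQ (z : ℤ) (p q : T → ℤ) (s : T) (i : Coord T) :
    (ruleQ s i).eval 1 (conf z p q) = conf z p (q + Pi.single s 1) i := by
  rcases i with _ | ⟨t, j⟩
  · simp [ruleQ, LinExp.eval, conf]
  · by_cases hts : t = s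
    · subst hts
      fin_cases j
      · simp [ruleQ, LinExp.eval, conf]
      · simp [ruleQ, LinExp.eval, conf]
      · simp [ruleQ, LinExp.eval, conf]; ring
    · fin_cases j <;> simp [ruleQ, LinExp.eval, conf, hts]

/-- A function on `T → ℤ` constant along unit vectors is constant. -/
theorem const_of_single [Finite T] (E : (T → ℤ) → (T → ℤ) → Prop) (hE : Equivalence E)
    (h : ∀ p s, E p (p + Pi.single s 1)) (p : T → ℤ) : E 0 p := by
  classical
  have := Fintype.ofFinite T
  let K : AddSubgroup (T → ℤ) :=
    { carrier := {d | ∀ p, E p (p + d)}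
      zero_mem' := fun p => by rw [add_zero]; exact hE.refl p
      add_mem' := fun {a b} ha hb p => by
        rw [← add_assoc]
        exact hE.trans (ha p) (hb (p + a))
      neg_mem' := fun {a} ha p => by
        have := ha (p + -a)
        rw [neg_add_cancel_right] at this
        exact hE.symm this }
  have h1 : ∀ s, Pi.single s 1 ∈ K := fun s p => h p s
  have h2 : ∀ p : T → ℤ, p ∈ K := by
    intro p
    have : p = ∑ s, p s • (Pi.single s 1 : T → ℤ) := by
      funext t
      simp [Finset.sum_apply, Pi.single_apply]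
    rw [this]
    exact K.sum_mem fun s _ => K.zsmul_mem (h1 s) _
  have := h2 p 0
  rwa [zero_add] at this

/-- The configurations `conf z p q` are connected to `conf z 0 0`. -/
theorem conf_connected [Finite T] (E : (Coord T → ℤ) → (Coord T → ℤ) → Prop)
    (hE : Equivalence E)
    (hP : ∀ s c, E c (fun i => (ruleP s i).eval 1 c))
    (hQ : ∀ s c, E c (fun i => (ruleQ s i).eval 1 c)) (z : ℤ) (p q : T → ℤ) :
    E (conf z 0 0) (conf z p q) := by
  have h1 : E (conf z 0 0) (conf z p 0) := by
    refine const_of_single (fun a b => E (conf z a 0) (conf z b 0))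
      ⟨fun _ => hE.refl _, fun h => hE.symm h, fun h h' => hE.trans h h'⟩ (fun a s => ?_) p
    have := hP s (conf z a 0)
    simpa only [conf_ruleP] using this
  have h2 : E (conf z p 0) (conf z p q) := by
    refine const_of_single (fun a b => E (conf z p a) (conf z p b))
      ⟨fun _ => hE.refl _, fun h => hE.symm h, fun h h' => hE.trans h h'⟩ (fun a s => ?_) q
    have := hQ s (conf z p a)
    simpa only [conf_ruleQ] using this
  exact hE.trans h1 h2

/-- Invariance of the product condition in scaled form. -/
theorem scaled_ruleP (N : Set (Coord T → ℤ)) (s : T)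
    (hN : ∀ τ : Coord T → ℤ, (fun i => (ruleP s i).eval 1 τ) ∈ N ↔ τ ∈ N) (J : ℤ)
    (m : Coord T → ℤ) :
    (∃ τ ∈ N, ∀ i, J * τ i = m i) ↔ (∃ τ ∈ N, ∀ i, J * τ i = (ruleP s i).eval J m) := by
  constructor
  · rintro ⟨τ, hτ, h⟩
    refine ⟨fun i => (ruleP s i).eval 1 τ, (hN τ).mpr hτ, fun i => ?_⟩
    simp only [ruleP]
    split_ifs <;> simp [LinExp.eval, ← h] <;> ring
  · rintro ⟨τ, hτ, h⟩
    let τ' : Coord T → ℤ := fun i => if i = some (s, 0) then τ i - 1
      else if i = some (s, 2) then τ i - τ (some (s, 1)) else τ i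
    have h1 : (fun i => (ruleP s i).eval 1 τ') = τ := by
      funext i
      simp only [ruleP]
      split_ifs with h1 h2
      · subst h1; simp [LinExp.eval, τ']
      · subst h2; simp [LinExp.eval, τ']
      · simp [LinExp.eval, τ', h1, h2]
    refine ⟨τ', ?_, fun i => ?_⟩
    · rw [← hN, h1]; exact hτ
    · have hi := h i
      have hq := h (some (s, 1))
      simp only [ruleP] at hi hq
      simp [LinExp.eval] at hq
      simp only [τ']
      split_ifs with h1 h2
      · subst h1
        simp [LinExp.eval] at hi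
        rw [mul_sub, hi]; ring
      · subst h2
        simp [LinExp.eval] at hi
        rw [mul_sub, hi, hq]; ring
      · rw [hi]; simp [LinExp.eval, h1, h2]

theorem scaled_ruleQ (N : Set (Coord T → ℤ)) (s : T)
    (hN : ∀ τ : Coord T → ℤ, (fun i => (ruleQ s i).eval 1 τ) ∈ N ↔ τ ∈ N) (J : ℤ)
    (m : Coord T → ℤ) :
    (∃ τ ∈ N, ∀ i, J * τ i = m i) ↔ (∃ τ ∈ N, ∀ i, J * τ i = (ruleQ s i).eval J m) := by
  constructor
  · rintro ⟨τ, hτ, h⟩
    refine ⟨fun i => (ruleQ s i).eval 1 τ, (hN τ).mpr hτ, fun i => ?_⟩
    simp only [ruleQ]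
    split_ifs <;> simp [LinExp.eval, ← h] <;> ring
  · rintro ⟨τ, hτ, h⟩
    let τ' : Coord T → ℤ := fun i => if i = some (s, 1) then τ i - 1
      else if i = some (s, 2) then τ i - τ (some (s, 0)) else τ i
    have h1 : (fun i => (ruleQ s i).eval 1 τ') = τ := by
      funext i
      simp only [ruleQ]
      split_ifs with h1 h2
      · subst h1; simp [LinExp.eval, τ']
      · subst h2; simp [LinExp.eval, τ']
      · simp [LinExp.eval, τ', h1, h2]
    refine ⟨τ', ?_, fun i => ?_⟩
    · rw [← hN, h1]; exact hτ
    · have hi := h i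
      have hq := h (some (s, 0))
      simp only [ruleQ] at hi hq
      simp [LinExp.eval] at hq
      simp only [τ']
      split_ifs with h1 h2
      · subst h1
        simp [LinExp.eval] at hi
        rw [mul_sub, hi]; ring
      · subst h2
        simp [LinExp.eval] at hi
        rw [mul_sub, hi, hq]; ring
      · rw [hi]; simp [LinExp.eval, h1, h2]

end GenericMachine

section Final

variable {γ : Type}

/-- A variable or the constant one as an affine form. -/
def atomExp : Option (Option γ) → LinExp (Option γ)
  | none => .one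
  | some w => .var w

/-- The three affine forms of an equation: the product of the first two should be the third. -/
def eqnExp : Eqn (Option (Option γ)) → Fin 3 → LinExp (Option γ)
  | .add i j k => fun t => if t = 0 then .add (atomExp i) (atomExp j) else if t = 1 then .one
      else atomExp k
  | .mul i j k => fun t => if t = 0 then atomExp i else if t = 1 then atomExp j else atomExp k

/-- The final pattern. -/
def finPat (E : List (Eqn (Option (Option γ)))) :
    Coord (Fin E.length ⊕ γ) → LinExp (Option γ)
  | none => .var none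
  | some (.inl s, j) => eqnExp (E.get s) j
  | some (.inr r, j) => if j = 0 then .var (some r) else .zero

/-- The invariant set. -/
def badSet (E : List (Eqn (Option (Option γ)))) : Set (Coord (Fin E.length ⊕ γ) → ℤ) :=
  {τ | (∀ s, τ (some (s, 2)) = τ (some (s, 0)) * τ (some (s, 1))) ∧
    ¬ ∃ y : γ → ℤ, ∀ e ∈ E, e.holds (Option.elim' 1 (Option.elim' (τ none) y))}

theorem atomExp_eval (c : Option γ → ℤ) (i : Option (Option γ)) :
    (atomExp i).eval 1 c = Option.elim' 1 c i := by
  cases i <;> rfl

theorem eqnExp_holds (c : Option γ → ℤ) (e : Eqn (Option (Option γ))) :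
    (eqnExp e 0).eval 1 c * (eqnExp e 1).eval 1 c = (eqnExp e 2).eval 1 c ↔
      e.holds (Option.elim' 1 c) := by
  cases e <;> simp [eqnExp, LinExp.eval, atomExp_eval, Eqn.holds]

theorem LinExp.eval_smul {V : Type} (J : ℤ) (c : V → ℤ) (a : LinExp V) :
    a.eval J (fun i => J * c i) = J * a.eval 1 c := by
  induction a with
  | zero => simp [LinExp.eval]
  | one => simp [LinExp.eval]
  | var i => rfl
  | add a b iha ihb => simp [LinExp.eval, iha, ihb, mul_add]

theorem finPat_good (E : List (Eqn (Option (Option γ)))) (c : Option γ → ℤ)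
    (h : ∀ e ∈ E, e.holds (Option.elim' 1 c)) :
    (fun i => (finPat E i).eval 1 c) =
      conf (c none) (fun s => (finPat E (some (s, 0))).eval 1 c)
        (fun s => (finPat E (some (s, 1))).eval 1 c) := by
  funext i
  rcases i with _ | ⟨s | r, j⟩
  · rfl
  · fin_cases j
    · rfl
    · rfl
    · exact ((eqnExp_holds c _).mpr (h _ (List.get_mem _ _))).symm
  · fin_cases j
    · rfl
    · rfl
    · simp [finPat, conf, LinExp.eval]

theorem finPat_bad (E : List (Eqn (Option (Option γ)))) (J : ℤ) (m : Option γ → ℤ) (hJ : J ≠ 0) :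
    ¬ ∃ τ ∈ badSet E, ∀ i, J * τ i = (finPat E i).eval J m := by
  rintro ⟨τ, ⟨hτ1, hτ2⟩, h⟩
  apply hτ2
  let c : Option γ → ℤ := Option.elim' (τ none) (fun r => τ (some (.inr r, 0)))
  have hm : m = fun i => J * c i := by
    funext i
    rcases i with _ | r
    · exact (h none).symm
    · exact (h (some (.inr r, 0))).symm
  have h1 : ∀ i, τ i = (finPat E i).eval 1 c := by
    intro i
    have := h i
    rw [hm, LinExp.eval_smul] at this
    exact mul_left_cancel₀ hJ this
  refine ⟨fun r => τ (some (.inr r, 0)), fun e he => ?_⟩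
  obtain ⟨s, rfl⟩ := List.get_of_mem he
  rw [← eqnExp_holds]
  have h2 := hτ1 (.inl s)
  rw [h1, h1 (some (_, 0)), h1 (some (_, 1))] at h2
  exact h2.symm

theorem badSet_ruleP [DecidableEq γ] (E : List (Eqn (Option (Option γ))))
    (s : Fin E.length ⊕ γ) (τ : Coord (Fin E.length ⊕ γ) → ℤ) :
    (fun i => (ruleP s i).eval 1 τ) ∈ badSet E ↔ τ ∈ badSet E := by
  unfold badSet
  simp only [Set.mem_setOf_eq]
  have h0 : (ruleP s none).eval 1 τ = τ none := by simp [ruleP, LinExp.eval]
  rw [h0]
  refine and_congr_left fun _ => forall_congr' fun t => ?_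
  by_cases hts : t = s
  · subst hts
    simp [ruleP, LinExp.eval, add_mul]
  · simp [ruleP, LinExp.eval, hts]

theorem badSet_ruleQ [DecidableEq γ] (E : List (Eqn (Option (Option γ))))
    (s : Fin E.length ⊕ γ) (τ : Coord (Fin E.length ⊕ γ) → ℤ) :
    (fun i => (ruleQ s i).eval 1 τ) ∈ badSet E ↔ τ ∈ badSet E := by
  unfold badSet
  simp only [Set.mem_setOf_eq]
  have h0 : (ruleQ s none).eval 1 τ = τ none := by simp [ruleQ, LinExp.eval]
  rw [h0]
  refine and_congr_left fun _ => forall_congr' fun t => ?_
  by_cases hts : t = s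
  · subst hts
    simp [ruleQ, LinExp.eval, mul_add]
  · simp [ruleQ, LinExp.eval, hts]

end Final

section Transport

/-- The form of the machine used in the reduction. -/
structure Machine (S : ℕ → Prop) : Type where
  k : ℕ
  rules : List ((Fin k → LinExp ℕ) × (Fin k → LinExp ℕ))
  fin : Fin k → LinExp ℕ
  i0 : Fin k
  N : Set (Fin k → ℤ)
  good : ∀ n : ℕ, S n → ∀ E : (Fin k → ℤ) → (Fin k → ℤ) → Prop, Equivalence E →
    (∀ r ∈ rules, ∀ c : ℕ → ℤ, E (fun i => (r.1 i).eval 1 c) (fun i => (r.2 i).eval 1 c)) →
    ∃ c : ℕ → ℤ, E (Pi.single i0 (n : ℤ)) (fun i => (fin i).eval 1 c)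
  start : ∀ n : ℕ, ¬ S n → Pi.single i0 (n : ℤ) ∈ N
  rule : ∀ (J : ℤ) (m : ℕ → ℤ), ∀ r ∈ rules,
    (∃ τ ∈ N, ∀ i, J * τ i = (r.1 i).eval J m) ↔ (∃ τ ∈ N, ∀ i, J * τ i = (r.2 i).eval J m)
  bad : ∀ (J : ℤ) (m : ℕ → ℤ), J ≠ 0 → ¬ ∃ τ ∈ N, ∀ i, J * τ i = (fin i).eval J m

theorem exists_machine {S : ℕ → Prop} (hS : Dioph {v : Vector3 ℕ 1 | S (Vector3.nth (Fin2.fz) v)}) :
    Nonempty (Machine S) := by
  classical
  obtain ⟨γ, hγ, E, hE⟩ := dioph_system hS
  have := Fintype.ofFinite γ
  let T := Fin E.length ⊕ γ
  let C := Coord T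
  let k := Fintype.card C
  let e : C ≃ Fin k := Fintype.equivFin C
  let d : Option γ ≃ Fin (Fintype.card (Option γ)) := Fintype.equivFin _
  let f : C → ℕ := fun i => (e i : ℕ)
  have hf : Function.Injective f := fun a b h => e.injective (Fin.ext h)
  let g : Option γ → ℕ := fun i => (d i : ℕ)
  have hg : Function.Injective g := fun a b h => d.injective (Fin.ext h)
  let base : Fin k → LinExp ℕ := fun i => .var i
  let rp : T → Fin k → LinExp ℕ := fun s i => (ruleP s (e.symm i)).map f
  let rq : T → Fin k → LinExp ℕ := fun s i => (ruleQ s (e.symm i)).map f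
  let N : Set (Fin k → ℤ) := {τ | τ ∘ e ∈ badSet E}
  have hbase : ∀ (J : ℤ) (c : ℕ → ℤ) (i : Fin k), (base i).eval J c = c i := fun _ _ _ => rfl
  have hsing : ∀ n : ℕ, (Pi.single (e none) (n : ℤ) : Fin k → ℤ) ∘ e = conf (n : ℤ) 0 0 := by
    intro n
    funext i
    rcases i with _ | ⟨s, j⟩
    · simp [conf]
    · have h1 : e (some (s, j)) ≠ e none := fun h => by simpa using e.injective h
      simp only [Function.comp_apply]
      rw [Pi.single_eq_of_ne h1]
      fin_cases j <;> simp [conf]
  have hrule : ∀ (J : ℤ) (m : ℕ → ℤ) (R : C → LinExp C),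
      (∀ m : C → ℤ, (∃ τ ∈ badSet E, ∀ i, J * τ i = m i) ↔
        (∃ τ ∈ badSet E, ∀ i, J * τ i = (R i).eval J m)) →
      ((∃ τ ∈ N, ∀ i, J * τ i = (base i).eval J m) ↔
        (∃ τ ∈ N, ∀ i, J * τ i = ((R (e.symm i)).map f).eval J m)) := by
    intro J m R h
    have h1 := h (m ∘ f)
    constructor
    · rintro ⟨τ, hτ, h2⟩
      obtain ⟨τ', hτ', h3⟩ := h1.mp ⟨τ ∘ e, hτ, fun i => h2 (e i)⟩
      refine ⟨τ' ∘ e.symm, ?_, fun i => ?_⟩
      · simp only [N, Set.mem_setOf_eq, Function.comp_assoc]
        simpa using hτ'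
      · rw [LinExp.eval_map]
        exact h3 (e.symm i)
    · rintro ⟨τ, hτ, h2⟩
      obtain ⟨τ', hτ', h3⟩ := h1.mpr ⟨τ ∘ e, hτ, fun i => by
        have := h2 (e i)
        rwa [LinExp.eval_map, Equiv.symm_apply_apply] at this⟩
      refine ⟨τ' ∘ e.symm, ?_, fun i => ?_⟩
      · simp only [N, Set.mem_setOf_eq, Function.comp_assoc]
        simpa using hτ'
      · have := h3 (e.symm i)
        simp only [Function.comp_apply]
        rw [this]
        simp [base, f, LinExp.eval]
  refine ⟨{
    k := k
    rules := (Finset.univ : Finset T).toList.flatMap fun s => [(base, rp s), (base, rq s)]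
    fin := fun i => (finPat E (e.symm i)).map g
    i0 := e none
    N := N
    good := ?_
    start := ?_
    rule := ?_
    bad := ?_ }⟩
  · intro n hn R hR hrules
    obtain ⟨y, hy⟩ := (hE n).mp hn
    let c0 : Option γ → ℤ := Option.elim' (n : ℤ) y
    let c : ℕ → ℤ := Function.extend g c0 0
    have hc : c ∘ g = c0 := by
      funext i
      simp only [c, Function.comp_apply, hg.extend_apply]
    refine ⟨c, ?_⟩
    have h1 : (fun i => ((finPat E (e.symm i)).map g).eval 1 c) =
        (fun i => (finPat E i).eval 1 c0) ∘ e.symm := by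
      funext i
      rw [LinExp.eval_map, hc]
      rfl
    rw [h1, finPat_good E c0 hy]
    have h2 : (Pi.single (e none) (n : ℤ) : Fin k → ℤ) = conf (n : ℤ) 0 0 ∘ e.symm := by
      rw [← hsing, Function.comp_assoc]
      simp
    rw [h2]
    refine conf_connected (fun a b => R (a ∘ e.symm) (b ∘ e.symm))
      ⟨fun _ => hR.refl _, fun h => hR.symm h, fun h h' => hR.trans h h'⟩ ?_ ?_ _ _ _
    · intro s c
      have h3 := hrules (base, rp s) (by
        rw [List.mem_flatMap]
        exact ⟨s, by simp, by simp⟩) (Function.extend f c 0)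
      have h4 : Function.extend f c 0 ∘ f = c := by
        funext i
        simp only [Function.comp_apply, hf.extend_apply]
      have h5 : (fun i => (base i).eval 1 (Function.extend f c 0)) = c ∘ e.symm := by
        funext i
        have : Function.extend f c 0 (f (e.symm i)) = c (e.symm i) := hf.extend_apply _ _ _
        simpa [base, f, LinExp.eval] using this
      have h6 : (fun i => (rp s i).eval 1 (Function.extend f c 0)) =
          (fun i => (ruleP s i).eval 1 c) ∘ e.symm := by
        funext i
        simp only [rp, LinExp.eval_map, h4]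
        rfl
      simp only [h5, h6] at h3
      exact h3
    · intro s c
      have h3 := hrules (base, rq s) (by
        rw [List.mem_flatMap]
        exact ⟨s, by simp, by simp⟩) (Function.extend f c 0)
      have h4 : Function.extend f c 0 ∘ f = c := by
        funext i
        simp only [Function.comp_apply, hf.extend_apply]
      have h5 : (fun i => (base i).eval 1 (Function.extend f c 0)) = c ∘ e.symm := by
        funext i
        have : Function.extend f c 0 (f (e.symm i)) = c (e.symm i) := hf.extend_apply _ _ _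
        simpa [base, f, LinExp.eval] using this
      have h6 : (fun i => (rq s i).eval 1 (Function.extend f c 0)) =
          (fun i => (ruleQ s i).eval 1 c) ∘ e.symm := by
        funext i
        simp only [rq, LinExp.eval_map, h4]
        rfl
      simp only [h5, h6] at h3
      exact h3
  · intro n hn
    simp only [N, Set.mem_setOf_eq]
    rw [hsing]
    refine ⟨fun s => by simp [conf], fun h => hn ?_⟩
    exact (hE n).mpr h
  · intro J m r hr
    rw [List.mem_flatMap] at hr
    obtain ⟨s, _, hs⟩ := hr
    simp only [List.mem_cons, List.not_mem_nil, or_false] at hs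
    rcases hs with rfl | rfl
    · exact hrule J m (ruleP s) fun m => scaled_ruleP (badSet E) s (badSet_ruleP E s) J m
    · exact hrule J m (ruleQ s) fun m => scaled_ruleQ (badSet E) s (badSet_ruleQ E s) J m
  · rintro J m hJ ⟨τ, hτ, h⟩
    refine finPat_bad E J (m ∘ g) hJ ⟨τ ∘ e, hτ, fun i => ?_⟩
    have := h (e i)
    rwa [LinExp.eval_map, Equiv.symm_apply_apply] at this

end Transport

end Pool.Agent.Lib.MP_57bda5_lc
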