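import Pool.Agent.Lib.MP_57bda5_lc.Solvable
import Pool.Agent.Lib.MP_57bda5_lc.Interface

set_option autoImplicit false

/-!
If the machine does not accept the input, the union of two cyclic subgroups of the model group is
closed.
-/

namespace Pool.Agent.Lib.MP_57bda5_lc

/-- The truth values the word has to compute. -/
def kappa {S : ℕ → Prop} (M : Machine S) (J : ℤ) (D : Fin M.k → ℤ) : Prop :=
  J ≠ 0 ∧ ∃ τ ∈ M.N, ∀ i, D i = J * (2 * τ i + 1)

theorem kappa_ne {S : ℕ → Prop} (M : Machine S) (J : ℤ) (D : Fin M.k → ℤ) (h : kappa M J D) :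
    J ≠ 0 ∧ ∀ i, D i ≠ 0 := by
  obtain ⟨hJ, τ, _, h⟩ := h
  refine ⟨hJ, fun i => ?_⟩
  rw [h i]
  refine mul_ne_zero hJ (fun h => ?_)
  omega

theorem kappa_iff {S : ℕ → Prop} (M : Machine S) (J : ℤ) (hJ : J ≠ 0) (e : Fin M.k → ℤ) :
    kappa M J (fun i => J + e i * 2) ↔ ∃ τ ∈ M.N, ∀ i, J * τ i = e i := by
  unfold kappa
  constructor
  · rintro ⟨_, τ, hτ, h⟩
    refine ⟨τ, hτ, fun i => ?_⟩
    have := h i
    have h2 : 2 * (J * τ i) = 2 * e i := by linarith
    exact mul_left_cancel₀ two_ne_zero h2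
  · rintro ⟨τ, hτ, h⟩
    refine ⟨hJ, τ, hτ, fun i => ?_⟩
    show J + e i * 2 = _
    rw [← h i]; ring

/-- The union of the cyclic subgroups generated by `x` and `y`. -/
def twoCyclic {G : Type*} [Group G] (x y : G) : Set G := {g | (∃ a : ℤ, g = x ^ a) ∨ ∃ b : ℤ, g = y ^ b}

theorem twoCyclic_inv {G : Type*} [Group G] {x y g : G} (hg : g ∈ twoCyclic x y) :
    g⁻¹ ∈ twoCyclic x y := by
  rcases hg with ⟨a, rfl⟩ | ⟨b, rfl⟩
  · exact Or.inl ⟨-a, by rw [zpow_neg]⟩
  · exact Or.inr ⟨-b, by rw [zpow_neg]⟩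

theorem mul_not_mem_twoCyclic {G : Type*} [Group G] {x y : G} (h : x * y ≠ y * x) :
    x * y ∉ twoCyclic x y := by
  rintro (⟨a, ha⟩ | ⟨b, hb⟩)
  · apply h
    have h1 : y = x ^ (a - 1) := by
      rw [sub_eq_add_neg, add_comm, zpow_add, zpow_neg, zpow_one, ← ha, inv_mul_cancel_left]
    rw [h1]
    exact ((Commute.refl x).zpow_right _).eq
  · apply h
    have h1 : x = y ^ (b - 1) := by
      rw [sub_eq_add_neg, zpow_add, zpow_neg, zpow_one, ← hb, mul_inv_cancel_right]
    rw [h1]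
    exact ((Commute.refl y).zpow_left _).eq

/-- Powers with exponent `ν` of elements of the set are powers of `y`. -/
theorem pow_mem_y {G : Type*} [Group G] {x y : G} {ν : ℕ} (hx : x ^ ν = 1) {g : G}
    (hg : g ∈ twoCyclic x y) : ∃ m : ℤ, g ^ ν = y ^ m := by
  rcases hg with ⟨a, rfl⟩ | ⟨b, rfl⟩
  · refine ⟨0, ?_⟩
    rw [zpow_zero, ← zpow_natCast, ← zpow_mul, mul_comm, zpow_mul, zpow_natCast, hx, one_zpow]
  · refine ⟨b * ν, ?_⟩
    rw [← zpow_natCast, ← zpow_mul]

section

variable {S : ℕ → Prop} (M : Machine S) {G : Type} [Group G] {x y : G} {ν : ℕ}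
  {W : FreeGroup (WIdx M.k)}

/-- The property of the word. -/
def WordProp (x y : G) (W : FreeGroup (WIdx M.k)) : Prop :=
  ∀ (l J : ℤ) (D : Fin M.k → ℤ),
      (kappa M J D → FreeGroup.lift (Sum.elim
        (fun o : Option (Fin 3) => conjY y (o.elim 0 (fun i => J * 2 ^ (i : ℕ))) (x ^ l))
        (fun i => conjY y (D i) (x ^ l))) W = x ^ l) ∧
      (¬ kappa M J D → FreeGroup.lift (Sum.elim
        (fun o : Option (Fin 3) => conjY y (o.elim 0 (fun i => J * 2 ^ (i : ℕ))) (x ^ l))
        (fun i => conjY y (D i) (x ^ l))) W = 1)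

theorem conjBy_zpow (y g : G) (m : ℤ) : conjBy (y ^ m) g = conjY y m g := by
  unfold conjBy conjY
  rw [zpow_neg]

theorem qWord_model (l J : ℤ) (D : Fin M.k → ℤ) (W : FreeGroup (WIdx M.k)) :
    qWord W (y ^ J) (fun i => y ^ (D i)) (x ^ l) =
      FreeGroup.lift (Sum.elim
        (fun o : Option (Fin 3) => conjY y (o.elim 0 (fun i => J * 2 ^ (i : ℕ))) (x ^ l))
        (fun i => conjY y (D i) (x ^ l))) W := by
  unfold qWord
  congr 2
  funext i
  rcases i with o | i
  · simp only [Sum.elim_inl]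
    rw [← zpow_natCast, ← zpow_mul, conjBy_zpow]
    congr 1
    cases o <;> simp [frameExp]
  · simp only [Sum.elim_inr]
    rw [conjBy_zpow]

/-- Value of a pattern word on elements of the set, base letter in the first cyclic group. -/
theorem qPat_model (a : Fin M.k → LinExp ℕ) (l J : ℤ) (m : ℕ → ℤ)
    (W : FreeGroup (WIdx M.k)) (v : G) (L : ℕ → G) (hv : v ^ ν = y ^ J) (hL : ∀ r, L r ^ ν = y ^ m r) :
    qPat W ν a (x ^ l) v L = FreeGroup.lift (Sum.elim
        (fun o : Option (Fin 3) => conjY y (o.elim 0 (fun i => J * 2 ^ (i : ℕ))) (x ^ l))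
        (fun i => conjY y (J + (a i).eval J m * 2) (x ^ l))) W := by
  rw [← qWord_model]
  unfold qPat
  rw [hv]
  congr 1
  funext i
  rw [show (fun r => L r ^ ν) = fun r => y ^ m r from funext hL, gval_zpow, ← zpow_natCast,
    ← zpow_mul, ← zpow_add]
  rfl

end

theorem closed_twoCyclic {S : ℕ → Prop} (M : Machine S) {G : Type} [Group G] {x y : G} {ν : ℕ}
    {W : FreeGroup (WIdx M.k)} (hν : 0 < ν) (hx : x ^ ν = 1)
    (hW : ∀ (H : Type) [Group H] (h : H), FreeGroup.lift (fun _ => h) W = 1)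
    (hWP : WordProp M x y W) (n : ℕ) (hn : ¬ S n) :
    ClosedUnder (wordList M W ν n) (twoCyclic x y) := by
  rw [closed_wordList]
  refine ⟨fun z hz => twoCyclic_inv hz, ?_, ?_⟩
  · -- the multiplication word
    have hyy : ∀ a b : ℤ, qStart W ν M.i0 n (y ^ a) (y ^ b) = 1 := by
      intro a b
      rw [qStart_eq]
      refine qWord_eq_one hW ?_ (fun i => ?_)
      · exact (((Commute.refl y).zpow_zpow b a).pow_left ν)
      · exact (((Commute.refl y).zpow_zpow b a).pow_left ν).zpow_left _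
    have hxx : ∀ (g : G) (b : ℤ), qStart W ν M.i0 n g (x ^ b) = 1 := by
      intro g b
      have h1 : (x ^ b) ^ ν = 1 := by
        rw [← zpow_natCast, ← zpow_mul, mul_comm, zpow_mul, zpow_natCast, hx, one_zpow]
      rw [qStart_eq, h1]
      refine qWord_eq_one hW (Commute.one_left _) (fun i => ?_)
      rw [one_zpow]
      exact Commute.one_left _
    have hxy : ∀ a b : ℤ, b ≠ 0 → qStart W ν M.i0 n (x ^ a) (y ^ b) = x ^ a := by
      intro a b hb
      rw [qStart_eq]
      have h1 : (y ^ b) ^ ν = y ^ (b * ν) := by rw [← zpow_natCast, ← zpow_mul]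
      have h2 : (fun i => ((y ^ b) ^ ν) ^ (2 * (Pi.single M.i0 (n : ℤ) : Fin M.k → ℤ) i + 1)) =
          fun i => y ^ (b * ν * (2 * (Pi.single M.i0 (n : ℤ) : Fin M.k → ℤ) i + 1)) := by
        funext i
        rw [h1, ← zpow_mul]
      rw [h2, h1, qWord_model]
      refine (hWP a (b * ν) _).1 ⟨?_, Pi.single M.i0 (n : ℤ), M.start n hn, fun i => rfl⟩
      exact mul_ne_zero hb (by exact_mod_cast hν.ne')
    intro z hz w hw
    rcases hz with ⟨a, rfl⟩ | ⟨a, rfl⟩ <;> rcases hw with ⟨b, rfl⟩ | ⟨b, rfl⟩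
    · rw [hxx, hxx]
      refine Or.inl ⟨a + b, ?_⟩
      simp [zpow_add]
    · by_cases hb : b = 0
      · subst hb
        have h1 : qStart W ν M.i0 n (x ^ a) (y ^ (0 : ℤ)) = 1 := by
          have := hxx (x ^ a) 0
          rwa [zpow_zero] at this ⊢
        rw [h1, hxx]
        exact Or.inl ⟨a, by simp⟩
      · rw [hxy a b hb, hxx]
        exact Or.inr ⟨b, by simp⟩
    · by_cases ha : a = 0
      · subst ha
        have h1 : qStart W ν M.i0 n (x ^ b) (y ^ (0 : ℤ)) = 1 := by
          have := hxx (x ^ b) 0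
          rwa [zpow_zero] at this ⊢
        rw [h1, hxx]
        exact Or.inl ⟨b, by simp⟩
      · rw [hxy b a ha, hxx]
        exact Or.inr ⟨a, by simp⟩
    · rw [hyy, hyy]
      refine Or.inr ⟨a + b, ?_⟩
      simp [zpow_add]
  · -- the relators
    intro g hg ρ hρ t ht p hp
    have key : FreeGroup.lift ρ g = 1 := by
      obtain ⟨J, hJ⟩ := pow_mem_y hx (hρ 1)
      choose m hm using fun r => pow_mem_y hx (hρ (r + 2))
      -- base letter in the second group
      have hyc : ∀ b : ℤ, ρ 0 = y ^ b → ∀ a : Fin M.k → LinExp ℕ,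
          FreeGroup.lift ρ (qForm W ν a) = 1 := by
        intro b hb a
        rw [lift_qForm]
        unfold qPat
        have h1 : ∀ i, ρ 1 ^ ν * ((a i).gval (ρ 1 ^ ν) (fun r => ρ (r + 2) ^ ν)) ^ 2 =
            y ^ (J + (a i).eval J m * 2) := by
          intro i
          rw [hJ, show (fun r => ρ (r + 2) ^ ν) = fun r => y ^ m r from funext hm, gval_zpow,
            ← zpow_natCast, ← zpow_mul, ← zpow_add]
          rfl
        simp only [h1]
        rw [hJ, hb]
        exact qWord_eq_one hW ((Commute.refl y).zpow_zpow _ _)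
          (fun i => (Commute.refl y).zpow_zpow _ _)
      have hxc : ∀ l : ℤ, ρ 0 = x ^ l → ∀ a : Fin M.k → LinExp ℕ,
          FreeGroup.lift ρ (qForm W ν a) = FreeGroup.lift (Sum.elim
            (fun o : Option (Fin 3) => conjY y (o.elim 0 (fun i => J * 2 ^ (i : ℕ))) (x ^ l))
            (fun i => conjY y (J + (a i).eval J m * 2) (x ^ l))) W := by
        intro l hl a
        rw [lift_qForm, hl]
        exact qPat_model M a l J m W (ρ 1) (fun r => ρ (r + 2)) hJ hm
      have hk0 : J = 0 → ∀ D : Fin M.k → ℤ, ¬ kappa M J D := fun h D hk => hk.1 h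
      unfold relators at hg
      rw [List.mem_append, List.mem_map, List.mem_singleton] at hg
      rcases hg with ⟨r, hr, rfl⟩ | rfl
      · rw [map_mul, map_inv]
        rcases hρ 0 with ⟨l, hl⟩ | ⟨b, hb⟩
        · rw [hxc l hl, hxc l hl]
          by_cases hJ0 : J = 0
          · rw [(hWP l J _).2 (hk0 hJ0 _), (hWP l J _).2 (hk0 hJ0 _)]
            simp
          · have h1 := M.rule J m r hr
            by_cases hτ : ∃ τ ∈ M.N, ∀ i, J * τ i = (r.1 i).eval J m
            · rw [(hWP l J _).1 ((kappa_iff M J hJ0 _).mpr hτ),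
                (hWP l J _).1 ((kappa_iff M J hJ0 _).mpr (h1.mp hτ))]
              simp
            · rw [(hWP l J _).2 (fun h => hτ ((kappa_iff M J hJ0 _).mp h)),
                (hWP l J _).2 (fun h => hτ (h1.mpr ((kappa_iff M J hJ0 _).mp h)))]
              simp
        · rw [hyc b hb, hyc b hb]
          simp
      · rcases hρ 0 with ⟨l, hl⟩ | ⟨b, hb⟩
        · rw [hxc l hl]
          by_cases hJ0 : J = 0
          · exact (hWP l J _).2 (hk0 hJ0 _)
          · exact (hWP l J _).2 (fun h => M.bad J m hJ0 ((kappa_iff M J hJ0 _).mp h))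
        · exact hyc b hb _
    rw [key]
    simp only [inv_one, mul_one, inv_mul_cancel_right]
    exact ⟨ht, ht⟩

end Pool.Agent.Lib.MP_57bda5_lc
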