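import Pool.Agent.Lib.MP_57bda5_lc.Steinberg

/-!
The functions on the space of assignments which are represented by words.
-/

set_option linter.unusedSectionVars false
set_option linter.unusedSimpArgs false

namespace MP57bda5

/-- Assignments: exponent `l`, unit of distance `k`, data `d`. -/
structure Asg (m : ℕ) where
  l : ℤ
  k : ℤ
  d : Fin m → ℤ

/-- the index of the `i`-th letter -/
def Asg.idx {m : ℕ} (α : Asg m) : ℕ → ℤ
  | 0 => 0
  | 1 => α.k
  | 2 => 2 * α.k
  | 3 => 4 * α.k
  | (j + 4) => if h : j < m then α.d ⟨j, h⟩ else 0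

section Lists

variable {Λ : Type*} [Ring Λ] [CharP Λ 2]

/-- the matrix group -/
abbrev MG (Λ : Type*) [Ring Λ] := (Matrix (ZMod 53) (ZMod 53) Λ)ˣ

/-- product of a list of transvections -/
def Tl (L : List (ZMod 53 × ZMod 53 × Λ)) : MG Λ := (L.map (fun p => T p.1 p.2.1 p.2.2)).prod

/-- positions -/
def ps (L : List (ZMod 53 × ZMod 53 × Λ)) : List (ZMod 53 × ZMod 53) :=
  L.map (fun p => (p.1, p.2.1))

/-- no composable pairs -/
def nc (P Q : List (ZMod 53 × ZMod 53)) : Prop := ∀ p ∈ P, ∀ q ∈ Q, p.2 ≠ q.1 ∧ q.2 ≠ p.1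

instance (P Q : List (ZMod 53 × ZMod 53)) : Decidable (nc P Q) := by unfold nc; infer_instance

lemma Tl_append (L L' : List (ZMod 53 × ZMod 53 × Λ)) : Tl (L ++ L') = Tl L * Tl L' := by
  simp [Tl]

lemma Tl_commute {L L' : List (ZMod 53 × ZMod 53 × Λ)} (h : nc (ps L) (ps L')) :
    Commute (Tl L) (Tl L') := by
  unfold Tl
  refine Commute.list_prod_left _ _ ?_
  intro x hx
  refine Commute.list_prod_right _ _ ?_
  intro y hy
  obtain ⟨p, hp, rfl⟩ := List.mem_map.1 hx
  obtain ⟨q, hq, rfl⟩ := List.mem_map.1 hy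
  obtain ⟨h1, h2⟩ := h _ (List.mem_map.2 ⟨p, hp, rfl⟩) _ (List.mem_map.2 ⟨q, hq, rfl⟩)
  exact T_commute h1 h2 _ _

lemma ps_append (L L' : List (ZMod 53 × ZMod 53 × Λ)) : ps (L ++ L') = ps L ++ ps L' := by
  simp [ps]

lemma nc_append_left {P P' Q : List (ZMod 53 × ZMod 53)} (h : nc P Q) (h' : nc P' Q) :
    nc (P ++ P') Q := by
  intro p hp q hq
  rcases List.mem_append.1 hp with hp | hp
  · exact h p hp q hq
  · exact h' p hp q hq

lemma nc_symm {P Q : List (ZMod 53 × ZMod 53)} (h : nc P Q) : nc Q P :=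
  fun q hq p hp => ⟨(h p hp q hq).2, (h p hp q hq).1⟩

lemma Tl_mul_self {L : List (ZMod 53 × ZMod 53 × Λ)} (h : nc (ps L) (ps L)) :
    Tl L * Tl L = 1 := by
  induction L with
  | nil => simp [Tl]
  | cons p L ih =>
    have hh : Tl (p :: L) = T p.1 p.2.1 p.2.2 * Tl L := by simp [Tl]
    have hL : nc (ps L) (ps L) := fun x hx y hy =>
      h x (List.mem_cons_of_mem _ hx) y (List.mem_cons_of_mem _ hy)
    have hc : Commute (Tl [p]) (Tl L) := Tl_commute (fun x hx y hy =>
      h x (by simp [ps] at hx ⊢; exact Or.inl hx) y (List.mem_cons_of_mem _ hy))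
    have hc' : Commute (T p.1 p.2.1 p.2.2) (Tl L) := by simpa [Tl] using hc
    rw [hh, hc'.symm.mul_mul_mul_comm, T_mul_self, ih hL, one_mul]

/-- commutator with exactly one composable pair -/
lemma com_lists {a b c : ZMod 53} (z z' : Λ) (A X B Y : List (ZMod 53 × ZMod 53 × Λ))
    (hab : a ≠ b) (hbc : b ≠ c) (hac : a ≠ c)
    (h1 : nc (ps A) [(a, b)]) (h2 : nc (ps B) [(b, c)])
    (h3 : nc (ps A ++ ps X) (ps B ++ ps Y)) (h4 : nc (ps A ++ ps X) [(b, c)])
    (h5 : nc (ps B ++ ps Y) [(a, b)]) :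
    com (Tl (A ++ (a, b, z) :: X)) (Tl (B ++ (b, c, z') :: Y)) = T a c (z * z') := by
  have e1 : Tl (A ++ (a, b, z) :: X) = T a b z * Tl (A ++ X) := by
    have hc : Commute (Tl A) (Tl [(a, b, z)]) := Tl_commute h1
    have : A ++ (a, b, z) :: X = A ++ [(a, b, z)] ++ X := by simp
    rw [this, Tl_append, Tl_append, hc.eq, Tl_append, mul_assoc]
    simp [Tl]
  have e2 : Tl (B ++ (b, c, z') :: Y) = T b c z' * Tl (B ++ Y) := by
    have hc : Commute (Tl B) (Tl [(b, c, z')]) := Tl_commute h2
    have : B ++ (b, c, z') :: Y = B ++ [(b, c, z')] ++ Y := by simp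
    rw [this, Tl_append, Tl_append, hc.eq, Tl_append, mul_assoc]
    simp [Tl]
  have t1 : T b c z' = Tl [(b, c, z')] := by simp [Tl]
  have t2 : T a b z = Tl [(a, b, z)] := by simp [Tl]
  rw [e1, e2, com_RX_SZ, T_comm hab hbc hac]
  · rw [t1]; exact Tl_commute (by rw [ps_append]; exact h4)
  · exact Tl_commute (by rw [ps_append, ps_append]; exact h3)
  · rw [t2]; exact Tl_commute (by rw [ps_append]; exact h5)

/-- commutator with exactly one composable pair, other order -/
lemma com_lists' {a b c : ZMod 53} (z z' : Λ) (A X B Y : List (ZMod 53 × ZMod 53 × Λ))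
    (hab : a ≠ b) (hbc : b ≠ c) (hac : a ≠ c)
    (h1 : nc (ps A) [(a, b)]) (h2 : nc (ps B) [(b, c)])
    (h3 : nc (ps A ++ ps X) (ps B ++ ps Y)) (h4 : nc (ps A ++ ps X) [(b, c)])
    (h5 : nc (ps B ++ ps Y) [(a, b)]) :
    com (Tl (B ++ (b, c, z') :: Y)) (Tl (A ++ (a, b, z) :: X)) = T a c (z * z') := by
  rw [← com_inv, com_lists z z' A X B Y hab hbc hac h1 h2 h3 h4 h5, T_inv]

end Lists

section

variable {m : ℕ} {Λ : Type*} [Ring Λ] [CharP Λ 2] (r s o : ℤ → Λ)

/-- list form of the shifted conjugating element -/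
def csL (a : ZMod 53) (j : ℤ) : List (ZMod 53 × ZMod 53 × Λ) :=
  [(0 + a, 46 + a, r 0 + r j), (11 + a, 39 + a, s 0 + s j), (25 + a, 32 + a, o 0 + o j)]

/-- positions of the shifted conjugating element -/
def pc (a : ZMod 53) : List (ZMod 53 × ZMod 53) :=
  [(0 + a, 46 + a), (11 + a, 39 + a), (25 + a, 32 + a)]

lemma ps_csL (a : ZMod 53) (j : ℤ) : ps (csL r s o a j) = pc a := rfl

/-- shifted version of the conjugating element -/
def cs (a : ZMod 53) (j : ℤ) : MG Λ := Tl (csL r s o a j)

lemma gg_conj_Tl (b : ZMod 53) (L : List (ZMod 53 × ZMod 53 × Λ)) :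
    (gg b)⁻¹ * Tl L * gg b = Tl (L.map (fun p => (p.1 + b, p.2.1 + b, p.2.2))) := by
  induction L with
  | nil => simp [Tl]
  | cons p L ih =>
    have hh : ∀ (p : ZMod 53 × ZMod 53 × Λ) L, Tl (p :: L) = T p.1 p.2.1 p.2.2 * Tl L := by
      intro p L; simp [Tl]
    rw [List.map_cons, hh, hh, ← ih, ← gg_conj_T]
    group

lemma cs_conj (a b : ZMod 53) (j : ℤ) :
    (gg b)⁻¹ * cs r s o a j * gg b = cs r s o (a + b) j := by
  unfold cs
  rw [gg_conj_Tl]
  unfold csL
  simp [add_assoc]

lemma cs_zero_idx (a : ZMod 53) : cs r s o a 0 = 1 := by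
  unfold cs csL
  simp [CharTwo.add_self_eq_zero, T_zero, Tl]

lemma nc_pc_shift {a b : ZMod 53} (h : nc (pc 0) (pc (b - a))) : nc (pc a) (pc b) := by
  intro p hp q hq
  have hp' : (p.1 - a, p.2 - a) ∈ pc 0 := by
    simp only [pc, List.mem_cons, List.not_mem_nil, or_false] at hp ⊢
    rcases hp with rfl | rfl | rfl <;> simp
  have hq' : (q.1 - a, q.2 - a) ∈ pc (b - a) := by
    simp only [pc, List.mem_cons, List.not_mem_nil, or_false] at hq ⊢
    rcases hq with rfl | rfl | rfl <;> simp [add_sub_assoc]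
  obtain ⟨h1, h2⟩ := h _ hp' _ hq'
  simp only [ne_eq, sub_left_inj] at h1 h2
  exact ⟨h1, h2⟩

set_option maxRecDepth 100000 in
lemma cs_mul_self (a : ZMod 53) (j : ℤ) : cs r s o a j * cs r s o a j = 1 := by
  unfold cs
  apply Tl_mul_self
  rw [ps_csL]
  apply nc_pc_shift
  rw [sub_self]
  decide +kernel

lemma cs_inv (a : ZMod 53) (j : ℤ) : (cs r s o a j)⁻¹ = cs r s o a j :=
  inv_eq_of_mul_eq_one_right (cs_mul_self r s o a j)

/-- the letters -/
def letter (i : ℕ) : Asg m → MG Λ := fun α =>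
  cs r s o 0 (α.idx i) * gg (α.l : ZMod 53) * (cs r s o 0 (α.idx i))⁻¹

/-- the functions represented by words -/
def Rep (m : ℕ) : Subgroup (Asg m → MG Λ) := (FreeGroup.lift (letter (m := m) r s o)).range

lemma letter_mem (i : ℕ) : letter r s o i ∈ Rep r s o m := by
  refine ⟨FreeGroup.of i, ?_⟩
  simp

lemma letter_zero (α : Asg m) : letter r s o 0 α = gg (α.l : ZMod 53) := by
  simp [letter, Asg.idx, cs_zero_idx]

lemma letter_zpow (i : ℕ) (M : ℤ) (α : Asg m) :
    (letter r s o i α) ^ M =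
      cs r s o 0 (α.idx i) * gg ((M : ZMod 53) * (α.l : ZMod 53)) * (cs r s o 0 (α.idx i))⁻¹ := by
  unfold letter
  rw [conj_zpow, gg_zpow]

/-- basic words with exponent sum zero -/
def zeta (i : ℕ) (M : ℤ) : Asg m → MG Λ := (letter r s o 0) ^ (-M) * (letter r s o i) ^ M

lemma zeta_mem (i : ℕ) (M : ℤ) : zeta r s o i M ∈ Rep r s o m :=
  mul_mem (zpow_mem (letter_mem r s o 0) _) (zpow_mem (letter_mem r s o i) _)

lemma letter_zero_zpow (M : ℤ) (α : Asg m) :
    (letter r s o 0 α) ^ M = gg ((M : ZMod 53) * (α.l : ZMod 53)) := by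
  rw [letter_zpow]; simp [Asg.idx, cs_zero_idx]

lemma zeta_eval (i : ℕ) (M : ℤ) (α : Asg m) :
    zeta r s o i M α =
      cs r s o ((M : ZMod 53) * (α.l : ZMod 53)) (α.idx i) * cs r s o 0 (α.idx i) := by
  unfold zeta
  rw [Pi.mul_apply, Pi.pow_apply, Pi.pow_apply, letter_zero_zpow, letter_zpow, cs_inv]
  have := cs_conj r s o 0 ((M : ZMod 53) * (α.l : ZMod 53)) (α.idx i)
  rw [zero_add] at this
  rw [← this, ← gg_neg]
  push_cast
  rw [neg_mul]
  group

/-- conjugation of a represented function by a power of the zeroth letter -/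
def cj (M : ℤ) (f : Asg m → MG Λ) : Asg m → MG Λ :=
  (letter r s o 0) ^ (-M) * f * (letter r s o 0) ^ M

lemma cj_mem (M : ℤ) {f : Asg m → MG Λ} (hf : f ∈ Rep r s o m) : cj r s o M f ∈ Rep r s o m :=
  mul_mem (mul_mem (zpow_mem (letter_mem r s o 0) _) hf) (zpow_mem (letter_mem r s o 0) _)

lemma cj_eval (M : ℤ) (f : Asg m → MG Λ) (α : Asg m) :
    cj r s o M f α = (gg ((M : ZMod 53) * (α.l : ZMod 53)))⁻¹ * f α *
      gg ((M : ZMod 53) * (α.l : ZMod 53)) := by
  unfold cj
  rw [Pi.mul_apply, Pi.mul_apply, Pi.pow_apply, Pi.pow_apply, letter_zero_zpow, letter_zero_zpow,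
    ← gg_neg]
  push_cast
  rw [neg_mul]

lemma com_mem {f g : Asg m → MG Λ} (hf : f ∈ Rep r s o m) (hg : g ∈ Rep r s o m) :
    com f g ∈ Rep r s o m :=
  mul_mem (mul_mem (mul_mem hf hg) (inv_mem hf)) (inv_mem hg)

lemma com_eval (f g : Asg m → MG Λ) (α : Asg m) : com f g α = com (f α) (g α) := rfl

/-- the first level commutators -/
def DD (a b : ℤ) : Asg m → MG Λ := com (zeta r s o 1 a) (cj r s o 35 (zeta r s o 2 b))

lemma DD_mem (a b : ℤ) : DD r s o a b ∈ Rep r s o m :=
  com_mem r s o (zeta_mem r s o _ _) (cj_mem r s o _ (zeta_mem r s o _ _))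

lemma DD_eval (a b : ℤ) (α : Asg m) : DD r s o a b α =
    com (Tl (csL r s o (a * α.l) α.k ++ csL r s o 0 α.k))
      (Tl (csL r s o (b * α.l + 35 * α.l) (2 * α.k) ++ csL r s o (35 * α.l) (2 * α.k))) := by
  unfold DD
  rw [com_eval, zeta_eval, cj_eval, zeta_eval, Tl_append, Tl_append]
  congr 1
  calc _ = ((gg (((35 : ℤ) : ZMod 53) * (α.l : ZMod 53)))⁻¹ *
      cs r s o ((b : ZMod 53) * (α.l : ZMod 53)) (α.idx 2) *
      gg (((35 : ℤ) : ZMod 53) * (α.l : ZMod 53))) *
      ((gg (((35 : ℤ) : ZMod 53) * (α.l : ZMod 53)))⁻¹ *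
      cs r s o 0 (α.idx 2) *
      gg (((35 : ℤ) : ZMod 53) * (α.l : ZMod 53))) := by group
    _ = _ := by
      rw [cs_conj, cs_conj, zero_add]
      push_cast
      rfl

lemma DD_of_k_eq_zero (a b : ℤ) (α : Asg m) (hk : α.k = 0) : DD r s o a b α = 1 := by
  rw [DD_eval, hk, Tl_append]
  have := cs_zero_idx r s o (a * α.l)
  unfold cs at this
  rw [this]
  have := cs_zero_idx r s o 0
  unfold cs at this
  rw [this, one_mul, com_one_left]

variable (hrs : ∀ i j, r i * s j = if i = j then 1 else 0)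

include hrs in
lemma rs_one {k : ℤ} (hk : k ≠ 0) : (r 0 + r k) * (s 0 + s (2 * k)) = 1 := by
  rw [add_mul, mul_add, mul_add, hrs, hrs, hrs, hrs]
  rw [if_pos rfl, if_neg (by omega), if_neg (by omega), if_neg (by omega)]
  simp

include hrs in
lemma rs_one' {k : ℤ} (hk : k ≠ 0) : (r 0 + r (2 * k)) * (s 0 + s k) = 1 := by
  rw [add_mul, mul_add, mul_add, hrs, hrs, hrs, hrs]
  rw [if_pos rfl, if_neg (by omega), if_neg (by omega), if_neg (by omega)]
  simp

/-- position lists as lists of pairs of naturals -/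
def pcN (a : ℕ) : List (ℕ × ℕ) := [(0 + a, 46 + a), (11 + a, 39 + a), (25 + a, 32 + a)]

/-- boolean version of `nc` -/
def ncN (P Q : List (ℕ × ℕ)) : Bool :=
  P.all fun p => Q.all fun q => p.2 % 53 != q.1 % 53 && q.2 % 53 != p.1 % 53

/-- cast of position lists -/
def castL (P : List (ℕ × ℕ)) : List (ZMod 53 × ZMod 53) :=
  P.map fun p => ((p.1 : ZMod 53), (p.2 : ZMod 53))

lemma nc_cast {P Q : List (ℕ × ℕ)} (h : ncN P Q = true) : nc (castL P) (castL Q) := by
  intro p hp q hq
  obtain ⟨p, hp', rfl⟩ := List.mem_map.1 hp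
  obtain ⟨q, hq', rfl⟩ := List.mem_map.1 hq
  have h1 := List.all_eq_true.1 (List.all_eq_true.1 h p hp') q hq'
  simp only [Bool.and_eq_true, bne_iff_ne] at h1
  constructor
  · intro e
    apply h1.1
    have := (ZMod.natCast_eq_natCast_iff' _ _ _).1 e
    exact this
  · intro e
    apply h1.2
    have := (ZMod.natCast_eq_natCast_iff' _ _ _).1 e
    exact this

lemma castL_pcN (a : ℕ) : castL (pcN a) = pc (a : ZMod 53) := by
  simp [castL, pcN, pc]

lemma castL_append (P Q : List (ℕ × ℕ)) : castL (P ++ Q) = castL P ++ castL Q := by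
  simp [castL]

include hrs in
lemma DD_pos (a b : ℤ) (a' b' : ℕ) (ha : (a : ZMod 53) = (a' : ZMod 53))
    (hb : (b : ZMod 53) + 35 = (b' : ZMod 53)) (α : Asg m) (hk : α.k ≠ 0)
    (hl : (α.l : ZMod 53) = 1)
    (h1 : ncN (pcN a') [(0, 46)] = true)
    (h2 : ncN (pcN b' ++ [(35, 28)]) [(46, 21)] = true)
    (h3 : ncN (pcN a' ++ [(11, 39), (25, 32)]) (pcN b' ++ [(35, 28)] ++ [(7, 14)]) = true)
    (h4 : ncN (pcN a' ++ [(11, 39), (25, 32)]) [(46, 21)] = true)
    (h5 : ncN (pcN b' ++ [(35, 28)] ++ [(7, 14)]) [(0, 46)] = true) :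
    DD r s o a b α = T 0 21 1 := by
  replace h1 := nc_cast h1
  replace h2 := nc_cast h2
  replace h3 := nc_cast h3
  replace h4 := nc_cast h4
  replace h5 := nc_cast h5
  simp only [castL_append, castL_pcN, ← ha, ← hb] at h1 h2 h3 h4 h5
  simp only [castL, List.map_cons, List.map_nil, Nat.cast_ofNat, Nat.cast_zero] at h1 h2 h3 h4 h5
  rw [DD_eval, hl, mul_one, mul_one, mul_one]
  have := com_lists (a := 0) (b := 46) (c := 21) (r 0 + r α.k) (s 0 + s (2 * α.k))
    (csL r s o a α.k) [(11, 39, s 0 + s α.k), (25, 32, o 0 + o α.k)]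
    (csL r s o (b + 35) (2 * α.k) ++ [(35, 28, r 0 + r (2 * α.k))])
    [(7, 14, o 0 + o (2 * α.k))] (by decide) (by decide) (by decide) h1
    (by rw [ps_append]; exact h2) (by rw [ps_append]; exact h3) h4
    (by rw [ps_append]; exact h5)
  rw [rs_one r s hrs hk] at this
  rw [← this]
  congr 2

include hrs in
lemma DD_neg (a b : ℤ) (a' b' : ℕ) (ha : -(a : ZMod 53) = (a' : ZMod 53))
    (hb : -(b : ZMod 53) - 35 = (b' : ZMod 53)) (α : Asg m) (hk : α.k ≠ 0)
    (hl : (α.l : ZMod 53) = -1)
    (h1 : ncN (pcN b') [(18, 11)] = true)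
    (h2 : ncN (pcN a' ++ [(0, 46)]) [(11, 39)] = true)
    (h3 : ncN (pcN b' ++ [(29, 4), (43, 50)]) (pcN a' ++ [(0, 46)] ++ [(25, 32)]) = true)
    (h4 : ncN (pcN b' ++ [(29, 4), (43, 50)]) [(11, 39)] = true)
    (h5 : ncN (pcN a' ++ [(0, 46)] ++ [(25, 32)]) [(18, 11)] = true) :
    DD r s o a b α = T 18 39 1 := by
  replace h1 := nc_cast h1
  replace h2 := nc_cast h2
  replace h3 := nc_cast h3
  replace h4 := nc_cast h4
  replace h5 := nc_cast h5
  simp only [castL_append, castL_pcN, ← ha, ← hb] at h1 h2 h3 h4 h5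
  simp only [castL, List.map_cons, List.map_nil, Nat.cast_ofNat, Nat.cast_zero] at h1 h2 h3 h4 h5
  rw [DD_eval, hl, mul_neg, mul_one, mul_neg, mul_one, mul_neg, mul_one, ← sub_eq_add_neg]
  have := com_lists' (a := 18) (b := 11) (c := 39) (r 0 + r (2 * α.k)) (s 0 + s α.k)
    (csL r s o (-b - 35) (2 * α.k)) [(29, 4, s 0 + s (2 * α.k)), (43, 50, o 0 + o (2 * α.k))]
    (csL r s o (-a) α.k ++ [(0, 46, r 0 + r α.k)])
    [(25, 32, o 0 + o α.k)] (by decide) (by decide) (by decide) h1
    (by rw [ps_append]; exact h2) (by rw [ps_append]; exact h3) h4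
    (by rw [ps_append]; exact h5)
  rw [rs_one' r s hrs hk] at this
  rw [← this]
  congr 2

/-- bad differences, as a boolean test on naturals -/
def gdN (d : ℕ) : Bool :=
  ([46, 39, 32] : List ℕ).all fun b => ([0, 11, 25] : List ℕ).all fun a =>
    (d + a) % 53 != b && (b + d) % 53 != a

/-- all differences are admissible -/
def allgd (X Y : List ℕ) : Bool := X.all fun x => Y.all fun y => gdN ((y + (53 - x % 53)) % 53)

lemma num_check : ∀ l ∈ List.range 53, l = 1 ∨ l = 52 ∨
    allgd [6 * l, 0] [6 * l, 35 * l] = true ∨ allgd [52 * l, 0] [52 * l, 35 * l] = true ∨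
    allgd [6 * l, 0, 6 * l, 35 * l] [20 * l, 21 * l, 20 * l, 56 * l] = true := by
  decide +kernel

lemma natCast_ne_of_mod {a b : ℕ} (hb : b < 53) (h : a % 53 ≠ b) : (a : ZMod 53) ≠ (b : ZMod 53) := by
  intro e
  apply h
  have := congrArg ZMod.val e
  rw [ZMod.val_natCast, ZMod.val_natCast, Nat.mod_eq_of_lt hb] at this
  exact this

lemma nc_of_gdN {d : ℕ} (h : gdN d = true) : nc (pc 0) (pc (d : ZMod 53)) := by
  simp only [gdN, List.all_cons, List.all_nil, Bool.and_true, Bool.and_eq_true, bne_iff_ne] at h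
  obtain ⟨⟨⟨a1, a2⟩, ⟨a3, a4⟩, a5, a6⟩, ⟨⟨b1, b2⟩, ⟨b3, b4⟩, b5, b6⟩, ⟨c1, c2⟩, ⟨c3, c4⟩, c5, c6⟩ := h
  have k := fun {a b : ℕ} (hb : b < 53) (h : a % 53 ≠ b) => natCast_ne_of_mod (a := a) (b := b) hb h
  replace a1 := k (by norm_num) a1
  replace a2 := k (by norm_num) a2
  replace a3 := k (by norm_num) a3
  replace a4 := k (by norm_num) a4
  replace a5 := k (by norm_num) a5
  replace a6 := k (by norm_num) a6
  replace b1 := k (by norm_num) b1
  replace b2 := k (by norm_num) b2
  replace b3 := k (by norm_num) b3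
  replace b4 := k (by norm_num) b4
  replace b5 := k (by norm_num) b5
  replace b6 := k (by norm_num) b6
  replace c1 := k (by norm_num) c1
  replace c2 := k (by norm_num) c2
  replace c3 := k (by norm_num) c3
  replace c4 := k (by norm_num) c4
  replace c5 := k (by norm_num) c5
  replace c6 := k (by norm_num) c6
  push_cast at a1 a2 a3 a4 a5 a6 b1 b2 b3 b4 b5 b6 c1 c2 c3 c4 c5 c6
  intro p hp q hq
  simp only [pc, List.mem_cons, List.not_mem_nil, or_false, add_zero] at hp hq
  rcases hp with rfl | rfl | rfl <;> rcases hq with rfl | rfl | rfl <;>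
    refine ⟨fun e => ?_, fun e => ?_⟩ <;> simp only [add_comm] at * <;>
    first
      | exact a1 e.symm
      | exact a2 e
      | exact a3 e.symm
      | exact a4 e
      | exact a5 e.symm
      | exact a6 e
      | exact b1 e.symm
      | exact b2 e
      | exact b3 e.symm
      | exact b4 e
      | exact b5 e.symm
      | exact b6 e
      | exact c1 e.symm
      | exact c2 e
      | exact c3 e.symm
      | exact c4 e
      | exact c5 e.symm
      | exact c6 e

lemma nc_of_allgd {X Y : List ℕ} (h : allgd X Y = true) :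
    ∀ x ∈ X, ∀ y ∈ Y, nc (pc (x : ZMod 53)) (pc (y : ZMod 53)) := by
  intro x hx y hy
  unfold allgd at h
  rw [List.all_eq_true] at h
  have h1 := h x hx
  rw [List.all_eq_true] at h1
  have h2 := nc_of_gdN (h1 y hy)
  apply nc_pc_shift
  convert h2 using 2
  have : x % 53 ≤ 53 := (Nat.mod_lt _ (by norm_num)).le
  rw [ZMod.natCast_mod, Nat.cast_add, Nat.cast_sub this, ZMod.natCast_mod]
  have : ((53 : ℕ) : ZMod 53) = 0 := ZMod.natCast_self 53
  rw [this]; ring

lemma Commute_com {G : Type*} [Group G] {x y z : G} (h1 : Commute x z) (h2 : Commute y z) :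
    Commute (com x y) z := by
  unfold com
  exact ((h1.mul_left h2).mul_left h1.inv_left).mul_left h2.inv_left

lemma conj_com {G : Type*} [Group G] (g x y : G) :
    g⁻¹ * com x y * g = com (g⁻¹ * x * g) (g⁻¹ * y * g) := by
  unfold com; group

lemma Tl_comm4 {a b c d : ZMod 53} (i j i' j' : ℤ) (h1 : nc (pc a) (pc c)) (h2 : nc (pc a) (pc d))
    (h3 : nc (pc b) (pc c)) (h4 : nc (pc b) (pc d)) :
    Commute (Tl (csL r s o a i ++ csL r s o b j)) (Tl (csL r s o c i' ++ csL r s o d j')) := by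
  have k : ∀ {a b : ZMod 53} {i j : ℤ}, nc (pc a) (pc b) →
      Commute (Tl (csL r s o a i)) (Tl (csL r s o b j)) := fun h => Tl_commute h
  rw [Tl_append, Tl_append]
  exact ((k h1).mul_right (k h2)).mul_left ((k h3).mul_right (k h4))

lemma conj_csL2 {a b c : ZMod 53} (i j : ℤ) :
    (gg c)⁻¹ * Tl (csL r s o a i ++ csL r s o b j) * gg c =
      Tl (csL r s o (a + c) i ++ csL r s o (b + c) j) := by
  have := cs_conj r s o a c i
  have h' := cs_conj r s o b c j
  unfold cs at this h'
  rw [Tl_append, Tl_append, ← this, ← h']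
  group

/-- the second level commutator -/
def EE : Asg m → MG Λ := com (DD r s o 6 24) (cj r s o 21 (DD r s o (-1) 17))

lemma EE_mem : EE r s o ∈ Rep r s o m :=
  com_mem r s o (DD_mem r s o _ _) (cj_mem r s o _ (DD_mem r s o _ _))

/-- the represented constants -/
def cst (a b : ZMod 53) : Asg m → MG Λ := fun α =>
  if α.k = 0 then 1 else if (α.l : ZMod 53) = 1 then T a b 1
    else if (α.l : ZMod 53) = -1 then T (39 - b) (39 - a) 1 else 1

lemma EE_other (α : Asg m) (h1 : (α.l : ZMod 53) ≠ 1) (h2 : (α.l : ZMod 53) ≠ -1) :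
    EE r s o α = 1 := by
  obtain ⟨l, hl, hL⟩ : ∃ l : ℕ, l ∈ List.range 53 ∧ (α.l : ZMod 53) = (l : ZMod 53) := by
    refine ⟨(α.l : ZMod 53).val, List.mem_range.2 (ZMod.val_lt _), ?_⟩
    simp
  have hl1 : l ≠ 1 := by rintro rfl; exact h1 (by rw [hL]; simp)
  have hl2 : l ≠ 52 := by rintro rfl; exact h2 (by rw [hL]; decide)
  have e6 : (24 : ZMod 53) * l + 35 * l = ((6 * l : ℕ) : ZMod 53) := by
    have : (24 : ZMod 53) + 35 = 6 := by decide
    push_cast; rw [← add_mul, this]
  have e6' : (6 : ZMod 53) * l = ((6 * l : ℕ) : ZMod 53) := by push_cast; rfl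
  have e35 : (35 : ZMod 53) * l = ((35 * l : ℕ) : ZMod 53) := by push_cast; rfl
  have e52 : (-1 : ZMod 53) * l = ((52 * l : ℕ) : ZMod 53) := by
    have : (-1 : ZMod 53) = 52 := by decide
    push_cast; rw [this]
  have e52' : (17 : ZMod 53) * l + 35 * l = ((52 * l : ℕ) : ZMod 53) := by
    have : (17 : ZMod 53) + 35 = 52 := by decide
    push_cast; rw [← add_mul, this]
  have e0 : (0 : ZMod 53) = ((0 : ℕ) : ZMod 53) := by simp
  unfold EE
  rw [com_eval, cj_eval]
  rcases num_check l hl with h | h | h | h | h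
  · exact absurd h hl1
  · exact absurd h hl2
  · have : DD r s o 6 24 α = 1 := by
      rw [DD_eval, hL]
      apply com_eq_one
      push_cast
      rw [e6, e6', e35, e0]
      have := nc_of_allgd h
      apply Tl_comm4 <;> apply this <;> simp
    rw [this, com_one_left]
  · have : DD r s o (-1) 17 α = 1 := by
      rw [DD_eval, hL]
      apply com_eq_one
      push_cast
      rw [e52, e52', e35, e0]
      have := nc_of_allgd h
      apply Tl_comm4 <;> apply this <;> simp
    rw [this]; simp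
  · apply com_eq_one
    have := nc_of_allgd h
    have k1 : (52 * l + 21 * l : ℕ) = (20 * l : ZMod 53) := by
      have : (52 : ZMod 53) + 21 = 20 := by decide
      push_cast; rw [← add_mul, this]
    have k2 : (35 * l + 21 * l : ℕ) = (56 * l : ZMod 53) := by
      have : (35 : ZMod 53) + 21 = 56 := by decide
      push_cast; rw [← add_mul, this]
    push_cast at k1 k2
    rw [DD_eval, DD_eval, conj_com, hL]
    push_cast
    rw [conj_csL2, conj_csL2, e6, e6', e52', e52, e35, zero_add]
    push_cast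
    rw [k1, k2]
    push_cast at this
    have hh : ∀ x ∈ [6 * (l : ZMod 53), 0, 35 * l], ∀ y ∈ [20 * (l : ZMod 53), 21 * l, 56 * l],
        nc (pc x) (pc y) := by
      have a1 := this (6 * l) (by simp)
      have a2 := this 0 (by simp)
      have a3 := this (35 * l) (by simp)
      have b1 := a1 (20 * l) (by simp)
      have b2 := a1 (21 * l) (by simp)
      have b3 := a1 (56 * l) (by simp)
      have b4 := a2 (20 * l) (by simp)
      have b5 := a2 (21 * l) (by simp)
      have b6 := a2 (56 * l) (by simp)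
      have b7 := a3 (20 * l) (by simp)
      have b8 := a3 (21 * l) (by simp)
      have b9 := a3 (56 * l) (by simp)
      push_cast at b1 b2 b3 b4 b5 b6 b7 b8 b9
      intro x hx y hy
      simp only [List.mem_cons, List.not_mem_nil, or_false] at hx hy
      rcases hx with rfl | rfl | rfl <;> rcases hy with rfl | rfl | rfl <;> assumption
    have k : ∀ {x y x' y' : ZMod 53} {i j i' j' : ℤ}, x ∈ [6 * (l : ZMod 53), 0, 35 * l] →
        y ∈ [6 * (l : ZMod 53), 0, 35 * l] → x' ∈ [20 * (l : ZMod 53), 21 * l, 56 * l] →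
        y' ∈ [20 * (l : ZMod 53), 21 * l, 56 * l] →
        Commute (Tl (csL r s o x i ++ csL r s o y j)) (Tl (csL r s o x' i' ++ csL r s o y' j')) :=
      fun h1 h2 h3 h4 => Tl_comm4 r s o _ _ _ _ (hh _ h1 _ h3) (hh _ h1 _ h4) (hh _ h2 _ h3)
        (hh _ h2 _ h4)
    apply Commute_com
    · apply Commute.symm
      apply Commute_com <;> apply Commute.symm <;> apply k <;> simp
    · apply Commute.symm
      apply Commute_com <;> apply Commute.symm <;> apply k <;> simp

set_option maxRecDepth 100000 in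
include hrs in
lemma EE_pos (α : Asg m) (hk : α.k ≠ 0) (hl : (α.l : ZMod 53) = 1) :
    EE r s o α = T 0 42 1 := by
  unfold EE
  rw [com_eval, cj_eval, DD_pos r s o hrs 6 24 6 6 (by push_cast; decide) (by push_cast; decide)
    α hk hl (by decide) (by decide) (by decide) (by decide) (by decide),
    DD_pos r s o hrs (-1) 17 52 52 (by push_cast; decide) (by push_cast; decide)
    α hk hl (by decide) (by decide) (by decide) (by decide) (by decide), hl, gg_conj_T]
  push_cast
  have e1 : (0 : ZMod 53) + 21 * 1 = 21 := by decide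
  have e2 : (21 : ZMod 53) + 21 * 1 = 42 := by decide
  rw [e1, e2, T_comm (by decide) (by decide) (by decide), one_mul]

set_option maxRecDepth 100000 in
include hrs in
lemma EE_neg (α : Asg m) (hk : α.k ≠ 0) (hl : (α.l : ZMod 53) = -1) :
    EE r s o α = T (39 - 42) (39 - 0) 1 := by
  unfold EE
  rw [com_eval, cj_eval, DD_neg r s o hrs 6 24 47 47 (by push_cast; decide) (by push_cast; decide)
    α hk hl (by decide) (by decide) (by decide) (by decide) (by decide),
    DD_neg r s o hrs (-1) 17 1 1 (by push_cast; decide) (by push_cast; decide)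
    α hk hl (by decide) (by decide) (by decide) (by decide) (by decide), hl, gg_conj_T]
  push_cast
  have e1 : (39 : ZMod 53) - 42 = 50 := by decide
  have e2 : (39 : ZMod 53) - 0 = 39 := by decide
  have e3 : (18 : ZMod 53) + 21 * -1 = 50 := by decide
  have e4 : (39 : ZMod 53) + 21 * -1 = 18 := by decide
  rw [e1, e2, e3, e4, T_comm' (by decide) (by decide) (by decide), one_mul]

lemma EE_of_k_eq_zero (α : Asg m) (hk : α.k = 0) : EE r s o α = 1 := by
  unfold EE
  rw [com_eval, DD_of_k_eq_zero r s o _ _ α hk, com_one_left]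

include hrs in
lemma EE_eq : EE r s o = cst (m := m) 0 42 := by
  funext α
  unfold cst
  by_cases hk : α.k = 0
  · rw [if_pos hk, EE_of_k_eq_zero r s o α hk]
  · rw [if_neg hk]
    by_cases h1 : (α.l : ZMod 53) = 1
    · rw [if_pos h1, EE_pos r s o hrs α hk h1]
    · rw [if_neg h1]
      by_cases h2 : (α.l : ZMod 53) = -1
      · rw [if_pos h2, EE_neg r s o hrs α hk h2]
      · rw [if_neg h2, EE_other r s o α h1 h2]

lemma cj_cst (M : ℤ) (a b : ZMod 53) :
    cj r s o M (cst (m := m) a b) = cst (a + M) (b + M) := by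
  funext α
  rw [cj_eval]
  unfold cst
  by_cases hk : α.k = 0
  · simp [hk]
  · simp only [if_neg hk]
    by_cases h1 : (α.l : ZMod 53) = 1
    · simp only [if_pos h1]
      rw [h1, mul_one, gg_conj_T]
    · simp only [if_neg h1]
      by_cases h2 : (α.l : ZMod 53) = -1
      · simp only [if_pos h2]
        rw [h2, gg_conj_T]
        congr 1 <;> ring
      · simp only [if_neg h2]; simp

lemma com_cst {a b c : ZMod 53} (hab : a ≠ b) (hbc : b ≠ c) (hac : a ≠ c) :
    com (cst (Λ := Λ) (m := m) a b) (cst b c) = cst a c := by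
  funext α
  rw [com_eval]
  unfold cst
  by_cases hk : α.k = 0
  · simp [hk]
  · simp only [if_neg hk]
    by_cases h1 : (α.l : ZMod 53) = 1
    · simp only [if_pos h1]
      rw [T_comm hab hbc hac, one_mul]
    · simp only [if_neg h1]
      by_cases h2 : (α.l : ZMod 53) = -1
      · simp only [if_pos h2]
        rw [T_comm' (a := 39 - c) (b := 39 - b) (c := 39 - a), one_mul]
        · simpa using hbc.symm
        · simpa using hab.symm
        · simpa using hac.symm
      · simp only [if_neg h2]; simp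

include hrs in
lemma cst_mem_aux (j : ℕ) (hj : 1 ≤ j) (hj' : j < 53) (a : ZMod 53) :
    cst a (a + 42 * (j : ZMod 53)) ∈ Rep r s o m := by
  have h1 : ∀ a : ZMod 53, cst a (a + 42) ∈ Rep r s o m := by
    intro a
    have := cj_mem r s o (a.val : ℤ) (EE_mem r s o (m := m))
    rw [EE_eq r s o hrs, cj_cst] at this
    have e : (((a.val : ℕ) : ℤ) : ZMod 53) = a := by simp
    rw [e, zero_add, add_comm] at this
    exact this
  have h42 : ∀ j : ℕ, 1 ≤ j → j < 53 → (42 : ZMod 53) * (j : ZMod 53) ≠ 0 := by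
    intro j hj hj' e
    have h24 : (24 : ZMod 53) * 42 = 1 := by decide
    have : (j : ZMod 53) = 0 := by
      calc (j : ZMod 53) = (24 * 42) * j := by rw [h24, one_mul]
        _ = 24 * (42 * j) := by ring
        _ = 0 := by rw [e, mul_zero]
    rw [ZMod.natCast_eq_zero_iff] at this
    have := Nat.le_of_dvd (by omega) this
    omega
  induction j with
  | zero => omega
  | succ j ih =>
    rcases Nat.eq_zero_or_pos j with rfl | hpos
    · simpa using h1 a
    · have h2 := ih hpos (by omega)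
      have h3 := com_mem r s o h2 (h1 (a + 42 * (j : ZMod 53)))
      rw [com_cst] at h3
      · convert h3 using 2
        push_cast; ring
      · have := h42 j hpos (by omega)
        intro e; apply this
        linear_combination -e
      · intro e
        have : (42 : ZMod 53) = 0 := by linear_combination -e
        exact absurd this (by decide)
      · have := h42 (j + 1) (by omega) (by omega)
        intro e; apply this
        push_cast
        linear_combination -e

include hrs in
lemma cst_mem {a b : ZMod 53} (hab : a ≠ b) : cst a b ∈ Rep r s o m := by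
  have h42 : (42 : ZMod 53) * 24 = 1 := by decide
  have h := cst_mem_aux (m := m) r s o hrs ((24 * (b - a)).val) ?_ (ZMod.val_lt _) a
  · rw [ZMod.natCast_val, ZMod.cast_id', id, ← mul_assoc, h42, one_mul, add_sub_cancel] at h
    exact h
  · rw [Nat.one_le_iff_ne_zero, Ne, ZMod.val_eq_zero]
    intro e
    apply hab
    have : b - a = 0 := by
      calc b - a = (42 * 24) * (b - a) := by rw [h42, one_mul]
        _ = 42 * (24 * (b - a)) := by ring
        _ = 0 := by rw [e, mul_zero]
    exact (sub_eq_zero.1 this).symm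

/-- transvections with a coefficient, alive only on the good assignments -/
def sgl (a b : ZMod 53) (z : Asg m → Λ) : Asg m → MG Λ := fun α =>
  if α.k ≠ 0 ∧ (α.l : ZMod 53) = 1 then T a b (z α) else 1

lemma zeta_Tl (i : ℕ) (M : ℤ) (α : Asg m) : zeta r s o i M α =
    Tl (csL r s o ((M : ZMod 53) * (α.l : ZMod 53)) (α.idx i) ++ csL r s o 0 (α.idx i)) := by
  rw [zeta_eval, Tl_append]; rfl

/-- extraction of an entry: general form of the commutator with exactly one composable pair -/
lemma com_single {a b c : ZMod 53} (z z' : Λ) (B Y : List (ZMod 53 × ZMod 53 × Λ))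
    (hab : a ≠ b) (hbc : b ≠ c) (hac : a ≠ c) (h2 : nc (ps B) [(b, c)])
    (h5 : nc (ps B ++ ps Y) [(a, b)]) :
    com (T a b z) (Tl (B ++ (b, c, z') :: Y)) = T a c (z * z') := by
  have := com_lists z z' [] [] B Y hab hbc hac (by intro p hp; simp [ps] at hp) h2
    (by intro p hp; simp [ps] at hp) (by intro p hp; simp [ps] at hp) h5
  have e : Tl ([] ++ (a, b, z) :: []) = T a b z := by simp [Tl]
  rwa [e] at this

lemma extract_o (i : ℕ) : com (cst 2 25) (zeta r s o i 1) =
    sgl (m := m) 2 32 (fun α => o 0 + o (α.idx i)) := by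
  funext α
  rw [com_eval, zeta_Tl]
  unfold cst sgl
  by_cases hk : α.k = 0
  · simp [hk]
  · rw [if_neg hk]
    by_cases h1 : (α.l : ZMod 53) = 1
    · rw [if_pos h1, if_pos ⟨hk, h1⟩, h1, mul_one]
      have n1 : ncN (pcN 1 ++ [(0, 46), (11, 39)]) [(25, 32)] = true := by decide
      have n2 : ncN (pcN 1 ++ [(0, 46), (11, 39)]) [(2, 25)] = true := by decide
      replace n1 := nc_cast n1
      replace n2 := nc_cast n2
      simp only [castL_append, castL_pcN] at n1 n2
      simp only [castL, List.map_cons, List.map_nil, Nat.cast_ofNat, Nat.cast_zero,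
        Nat.cast_one] at n1 n2
      have := com_single (a := 2) (b := 25) (c := 32) 1 (o 0 + o (α.idx i))
        (csL r s o 1 (α.idx i) ++ [(0, 46, r 0 + r (α.idx i)), (11, 39, s 0 + s (α.idx i))]) []
        (by decide) (by decide) (by decide) (by rw [ps_append]; exact n1)
        (by rw [ps_append]
            have e : ps ([] : List (ZMod 53 × ZMod 53 × Λ)) = [] := rfl
            rw [e, List.append_nil]; exact n2)
      rw [one_mul] at this
      rw [← this]
      push_cast
      congr 2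
    · rw [if_neg h1, if_neg (show ¬ (α.k ≠ 0 ∧ (α.l : ZMod 53) = 1) from fun h => h1 h.2)]
      by_cases h2 : (α.l : ZMod 53) = -1
      · rw [if_pos h2, h2]
        apply com_eq_one
        have n1 : ncN [(14, 37)] (pcN 52 ++ pcN 0) = true := by decide
        replace n1 := nc_cast n1
        simp only [castL_append, castL_pcN] at n1
        simp only [castL, List.map_cons, List.map_nil, Nat.cast_ofNat, Nat.cast_zero] at n1
        have e1 : (39 : ZMod 53) - 25 = 14 := by decide
        have e2 : (39 : ZMod 53) - 2 = 37 := by decide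
        have e3 : ((1 : ℤ) : ZMod 53) * -1 = 52 := by push_cast; decide
        rw [e1, e2, e3]
        have t : (T 14 37 1 : MG Λ) = Tl [(14, 37, 1)] := by simp [Tl]
        rw [t]
        exact Tl_commute (by rw [ps_append]; exact n1)
      · rw [if_neg h2, com_one_left]

lemma extract_s (i : ℕ) : com (cst 2 11) (zeta r s o i 1) =
    sgl (m := m) 2 39 (fun α => s 0 + s (α.idx i)) := by
  funext α
  rw [com_eval, zeta_Tl]
  unfold cst sgl
  by_cases hk : α.k = 0
  · simp [hk]
  · rw [if_neg hk]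
    by_cases h1 : (α.l : ZMod 53) = 1
    · rw [if_pos h1, if_pos ⟨hk, h1⟩, h1, mul_one]
      have n1 : ncN (pcN 1 ++ [(0, 46)]) [(11, 39)] = true := by decide
      have n2 : ncN (pcN 1 ++ [(0, 46)] ++ [(25, 32)]) [(2, 11)] = true := by decide
      replace n1 := nc_cast n1
      replace n2 := nc_cast n2
      simp only [castL_append, castL_pcN] at n1 n2
      simp only [castL, List.map_cons, List.map_nil, Nat.cast_ofNat, Nat.cast_zero,
        Nat.cast_one] at n1 n2
      have := com_single (a := 2) (b := 11) (c := 39) 1 (s 0 + s (α.idx i))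
        (csL r s o 1 (α.idx i) ++ [(0, 46, r 0 + r (α.idx i))]) [(25, 32, o 0 + o (α.idx i))]
        (by decide) (by decide) (by decide) (by rw [ps_append]; exact n1)
        (by rw [ps_append]; exact n2)
      rw [one_mul] at this
      rw [← this]
      push_cast
      congr 2
    · rw [if_neg h1, if_neg (show ¬ (α.k ≠ 0 ∧ (α.l : ZMod 53) = 1) from fun h => h1 h.2)]
      by_cases h2 : (α.l : ZMod 53) = -1
      · rw [if_pos h2, h2]
        apply com_eq_one
        have n1 : ncN [(28, 37)] (pcN 52 ++ pcN 0) = true := by decide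
        replace n1 := nc_cast n1
        simp only [castL_append, castL_pcN] at n1
        simp only [castL, List.map_cons, List.map_nil, Nat.cast_ofNat, Nat.cast_zero] at n1
        have e1 : (39 : ZMod 53) - 11 = 28 := by decide
        have e2 : (39 : ZMod 53) - 2 = 37 := by decide
        have e3 : ((1 : ℤ) : ZMod 53) * -1 = 52 := by push_cast; decide
        rw [e1, e2, e3]
        have t : (T 28 37 1 : MG Λ) = Tl [(28, 37, 1)] := by simp [Tl]
        rw [t]
        exact Tl_commute (by rw [ps_append]; exact n1)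
      · rw [if_neg h2, com_one_left]

lemma com_sgl {a b c : ZMod 53} (hab : a ≠ b) (hbc : b ≠ c) (hac : a ≠ c) (z z' : Asg m → Λ) :
    com (sgl a b z) (sgl b c z') = sgl a c (fun α => z α * z' α) := by
  funext α
  rw [com_eval]
  unfold sgl
  by_cases h : α.k ≠ 0 ∧ (α.l : ZMod 53) = 1
  · rw [if_pos h, if_pos h, if_pos h, T_comm hab hbc hac]
  · rw [if_neg h, if_neg h, if_neg h, com_one_left]

lemma com_sgl_cst {a b c : ZMod 53} (hab : a ≠ b) (hbc : b ≠ c) (hac : a ≠ c) (z : Asg m → Λ) :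
    com (sgl a b z) (cst b c) = sgl a c z := by
  funext α
  rw [com_eval]
  unfold sgl cst
  by_cases h : α.k ≠ 0 ∧ (α.l : ZMod 53) = 1
  · rw [if_pos h, if_neg h.1, if_pos h.2, if_pos h, T_comm hab hbc hac, mul_one]
  · rw [if_neg h, if_neg h, com_one_left]

lemma com_cst_sgl {a b c : ZMod 53} (hab : a ≠ b) (hbc : b ≠ c) (hac : a ≠ c) (z : Asg m → Λ) :
    com (cst a b) (sgl b c z) = sgl a c z := by
  funext α
  rw [com_eval]
  unfold sgl cst
  by_cases h : α.k ≠ 0 ∧ (α.l : ZMod 53) = 1
  · rw [if_pos h, if_neg h.1, if_pos h.2, if_pos h, T_comm hab hbc hac, one_mul]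
  · rw [if_neg h, if_neg h, com_one_right]

/-- `z` is a represented coefficient -/
def RepZ (z : Asg m → Λ) : Prop := ∀ a b : ZMod 53, a ≠ b → sgl a b z ∈ Rep r s o m

lemma exists_third (a b c d : ZMod 53) : ∃ e : ZMod 53, e ≠ a ∧ e ≠ b ∧ e ≠ c ∧ e ≠ d := by
  have : ({a, b, c, d} : Finset (ZMod 53)) ≠ Finset.univ := by
    intro h
    have h1 : ({a, b, c, d} : Finset (ZMod 53)).card ≤ 4 := Finset.card_le_four
    rw [h, Finset.card_univ, ZMod.card] at h1
    omega
  have h2 := mt Finset.eq_univ_iff_forall.2 this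
  push Not at h2
  obtain ⟨e, he⟩ := h2
  simp only [Finset.mem_insert, Finset.mem_singleton, not_or] at he
  exact ⟨e, he.1, he.2.1, he.2.2.1, he.2.2.2⟩

include hrs in
lemma RepZ_of_one {a b : ZMod 53} (hab : a ≠ b) {z : Asg m → Λ} (h : sgl a b z ∈ Rep r s o m) :
    RepZ r s o z := by
  have hr : ∀ {a b c : ZMod 53}, a ≠ b → a ≠ c → sgl a b z ∈ Rep r s o m →
      sgl a c z ∈ Rep r s o m := by
    intro a b c hab hac h
    by_cases hbc : b = c
    · rwa [← hbc]
    · have := com_mem r s o h (cst_mem r s o hrs hbc)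
      rwa [com_sgl_cst hab hbc hac] at this
  have hl : ∀ {a b c : ZMod 53}, b ≠ c → a ≠ c → sgl b c z ∈ Rep r s o m →
      sgl a c z ∈ Rep r s o m := by
    intro a b c hbc hac h
    by_cases hab : a = b
    · rwa [hab]
    · have := com_mem r s o (cst_mem r s o hrs hab) h
      rwa [com_cst_sgl hab hbc hac] at this
  intro c d hcd
  obtain ⟨e, h1, h2, h3, h4⟩ := exists_third a b c d
  have s1 := hr hab h1.symm h
  have s2 := hl (a := c) h1.symm h3.symm s1
  exact hr h3.symm hcd s2

lemma RepZ_mul {z z' : Asg m → Λ} (h : RepZ r s o z) (h' : RepZ r s o z') :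
    RepZ r s o (fun α => z α * z' α) := by
  intro a b hab
  obtain ⟨e, h1, h2, _, _⟩ := exists_third a b a b
  have := com_mem r s o (h a e h1.symm) (h' e b h2)
  rwa [com_sgl h1.symm h2 hab] at this

lemma RepZ_congr {z z' : Asg m → Λ} (h : RepZ r s o z) (he : ∀ α : Asg m, α.k ≠ 0 → z α = z' α) :
    RepZ r s o z' := by
  intro a b hab
  have : sgl a b z' = sgl a b z := by
    funext α
    unfold sgl
    by_cases h : α.k ≠ 0 ∧ (α.l : ZMod 53) = 1
    · rw [if_pos h, if_pos h, he α h.1]
    · rw [if_neg h, if_neg h]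
  rw [this]; exact h a b hab

include hrs in
lemma RepZ_o (i : ℕ) : RepZ (m := m) r s o (fun α => o 0 + o (α.idx i)) := by
  apply RepZ_of_one r s o hrs (a := 2) (b := 32) (by decide)
  rw [← extract_o r s o]
  exact com_mem r s o (cst_mem r s o hrs (by decide)) (zeta_mem r s o _ _)

include hrs in
lemma RepZ_s (i : ℕ) : RepZ (m := m) r s o (fun α => s 0 + s (α.idx i)) := by
  apply RepZ_of_one r s o hrs (a := 2) (b := 39) (by decide)
  rw [← extract_s r s o]
  exact com_mem r s o (cst_mem r s o hrs (by decide)) (zeta_mem r s o _ _)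

end

end MP57bda5
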