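import Pool.Agent.Lib.MP_57bda5_lc.Words

set_option autoImplicit false

/-!
If the machine accepts the input, every nonempty closed subset of a group is a subgroup.
-/

namespace Pool.Agent.Lib.MP_57bda5_lc

/-- The subgroup of elements that may be inserted. -/
def insSubgroup {G : Type*} [Group G] (R : Set G) : Subgroup G where
  carrier := {g | ∀ p ∈ R, (∀ t ∈ R, t * p⁻¹ * g * p ∈ R) ∧ (∀ t ∈ R, t * p⁻¹ * g⁻¹ * p ∈ R)}
  one_mem' := fun p _ => ⟨fun t ht => by simpa using ht, fun t ht => by simpa using ht⟩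
  mul_mem' := by
    intro a b ha hb p hp
    refine ⟨fun t ht => ?_, fun t ht => ?_⟩
    · have := (hb p hp).1 _ ((ha p hp).1 t ht)
      simpa [mul_assoc] using this
    · have := (ha p hp).2 _ ((hb p hp).2 t ht)
      simpa [mul_assoc] using this
  inv_mem' := by
    intro a ha p hp
    exact ⟨(ha p hp).2, by simpa using (ha p hp).1⟩

theorem insSubgroup_equivalence {G α : Type*} [Group G] (R : Set G) (Q : α → G) :
    Equivalence fun τ τ' => Q τ * (Q τ')⁻¹ ∈ insSubgroup R := by
  refine ⟨fun τ => ?_, fun {τ τ'} h => ?_, fun {τ τ' τ''} h h' => ?_⟩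
  · rw [mul_inv_cancel]; exact (insSubgroup R).one_mem
  · have := (insSubgroup R).inv_mem h
    rwa [mul_inv_rev, inv_inv] at this
  · have := (insSubgroup R).mul_mem h h'
    rwa [mul_assoc, inv_mul_cancel_left] at this

theorem mem_relators {S : ℕ → Prop} {M : Machine S} (W : FreeGroup (WIdx M.k)) (ν : ℕ)
    {r : (Fin M.k → LinExp ℕ) × (Fin M.k → LinExp ℕ)} (hr : r ∈ M.rules) :
    qForm W ν r.1 * (qForm W ν r.2)⁻¹ ∈ relators M W ν := by
  unfold relators
  refine List.mem_append_left _ ?_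
  rw [List.mem_map]
  exact ⟨r, hr, rfl⟩

theorem qStart_eq {G : Type*} [Group G] {k : ℕ} (W : FreeGroup (WIdx k)) (ν : ℕ) (i0 : Fin k)
    (n : ℕ) (z w : G) :
    qStart W ν i0 n z w = qWord W (w ^ ν)
      (fun i => (w ^ ν) ^ (2 * (Pi.single i0 (n : ℤ) : Fin k → ℤ) i + 1)) z := by
  unfold qStart qWord
  congr 2
  funext i
  rcases i with o | i
  · simp [startExp, pow_mul]
  · simp only [startExp, Sum.elim_inr]
    congr 1
    by_cases h : i = i0
    · subst h
      simp only [if_true, Pi.single_eq_same]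
      rw [pow_mul, ← zpow_natCast (w ^ ν)]
      congr 1
    · simp [h]

theorem qPat_zpow {G : Type*} [Group G] {k : ℕ} (W : FreeGroup (WIdx k)) (ν : ℕ)
    (a : Fin k → LinExp ℕ) (u v : G) (c : ℕ → ℤ) :
    qPat W ν a u v (fun r => v ^ (c r)) =
      qWord W (v ^ ν) (fun i => (v ^ ν) ^ (2 * (a i).eval 1 c + 1)) u := by
  unfold qPat
  congr 1
  funext i
  have h1 : (fun r => (v ^ c r) ^ ν) = fun r => (v ^ ν) ^ c r := by
    funext r
    rw [← zpow_natCast, ← zpow_natCast, ← zpow_mul, ← zpow_mul, mul_comm]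
  have h2 : (a i).gval (v ^ ν) (fun r => (v ^ ν) ^ c r) = (v ^ ν) ^ ((a i).eval 1 c) := by
    have := gval_zpow (v ^ ν) 1 c (a i)
    rwa [zpow_one] at this
  rw [h1, h2, ← zpow_natCast ((v ^ ν) ^ _), ← zpow_mul]
  nth_rewrite 1 [← zpow_one (v ^ ν)]
  rw [← zpow_add]
  congr 1
  push_cast
  ring

theorem closed_subgroup {S : ℕ → Prop} (M : Machine S) (W : FreeGroup (WIdx M.k)) (ν n : ℕ)
    (hW : ∀ (H : Type) [Group H] (h : H), FreeGroup.lift (fun _ => h) W = 1)
    (hn : S n) {G : Type} [Group G] (R : Set G) (hne : R.Nonempty)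
    (hR : ClosedUnder (wordList M W ν n) R) :
    (∀ x ∈ R, x⁻¹ ∈ R) ∧ (∀ x ∈ R, ∀ y ∈ R, x * y ∈ R) := by
  obtain ⟨hinv, hmul, hrel⟩ := (closed_wordList M W ν n R).mp hR
  refine ⟨hinv, ?_⟩
  -- products of commuting elements
  have hcomm : ∀ z ∈ R, ∀ w ∈ R, Commute z w → z * w ∈ R := by
    intro z hz w hw hzw
    have h1 : qStart W ν M.i0 n z w = 1 := by
      rw [qStart_eq]
      exact qWord_eq_one hW (hzw.symm.pow_left _) (fun i => (hzw.symm.pow_left _).zpow_left _)
    have h2 : qStart W ν M.i0 n w z = 1 := by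
      rw [qStart_eq]
      exact qWord_eq_one hW (hzw.pow_left _) (fun i => (hzw.pow_left _).zpow_left _)
    have := hmul z hz w hw
    rw [h1, h2] at this
    simpa using this
  have hone : (1 : G) ∈ R := by
    obtain ⟨r, hr⟩ := hne
    have := hcomm r hr _ (hinv r hr) (Commute.refl r).inv_right
    simpa using this
  have hpow : ∀ v ∈ R, ∀ m : ℕ, v ^ m ∈ R := by
    intro v hv m
    induction m with
    | zero => simpa using hone
    | succ m ih =>
      rw [pow_succ]
      exact hcomm _ ih _ hv ((Commute.refl v).pow_left m)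
  have hzpow : ∀ v ∈ R, ∀ m : ℤ, v ^ m ∈ R := by
    intro v hv m
    obtain ⟨m, rfl | rfl⟩ := m.eq_nat_or_neg
    · rw [zpow_natCast]; exact hpow v hv m
    · rw [zpow_neg, zpow_natCast]; exact hinv _ (hpow v hv m)
  -- relators may be inserted
  have hins : ∀ g ∈ relators M W ν, ∀ ρ : ℕ → G, (∀ i, ρ i ∈ R) →
      FreeGroup.lift ρ g ∈ insSubgroup R := by
    intro g hg ρ hρ p hp
    exact ⟨fun t ht => (hrel g hg ρ hρ t ht p hp).1, fun t ht => (hrel g hg ρ hρ t ht p hp).2⟩
  -- the start configuration may be inserted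
  have hstart : ∀ u ∈ R, ∀ v ∈ R, qStart W ν M.i0 n u v ∈ insSubgroup R := by
    intro u hu v hv
    let Q : (Fin M.k → ℤ) → G := fun τ => qWord W (v ^ ν) (fun i => (v ^ ν) ^ (2 * τ i + 1)) u
    let ρ : (ℕ → ℤ) → ℕ → G := fun c i => if i = 0 then u else if i = 1 then v else v ^ (c (i - 2))
    have hρ : ∀ c i, ρ c i ∈ R := by
      intro c i
      simp only [ρ]
      split_ifs
      · exact hu
      · exact hv
      · exact hzpow v hv _
    have hQ : ∀ (a : Fin M.k → LinExp ℕ) (c : ℕ → ℤ),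
        FreeGroup.lift (ρ c) (qForm W ν a) = Q (fun i => (a i).eval 1 c) := by
      intro a c
      rw [lift_qForm]
      have := qPat_zpow W ν a u v c
      simpa [ρ] using this
    have hE := M.good n hn (fun τ τ' => Q τ * (Q τ')⁻¹ ∈ insSubgroup R)
      (insSubgroup_equivalence R Q)
    obtain ⟨c, hc⟩ := hE (by
        intro r hr c
        have h1 := hins _ (mem_relators W ν hr) (ρ c) (hρ c)
        rw [map_mul, map_inv, hQ, hQ] at h1
        exact h1)
    have h2 : Q (fun i => (M.fin i).eval 1 c) ∈ insSubgroup R := by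
      rw [← hQ]
      exact hins _ (by unfold relators; exact List.mem_append_right _ (List.mem_singleton.mpr rfl))
        _ (hρ c)
    have h3 := (insSubgroup R).mul_mem hc h2
    rw [inv_mul_cancel_right] at h3
    rw [qStart_eq]
    exact h3
  intro z hz w hw
  have h1 := hmul z hz w hw
  have h2 := ((hstart w hw z hz) 1 hone).1 _ h1
  have h3 := ((hstart z hz w hw) w hw).1 _ h2
  simpa [mul_assoc] using h3

end Pool.Agent.Lib.MP_57bda5_lc
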