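import Mathlib

/-!
Transvections over a (noncommutative) ring of characteristic two and permutation matrices.
-/

set_option linter.unusedSectionVars false
set_option linter.unusedSimpArgs false

namespace MP57bda5

open Matrix

/-- group commutator -/
def com {G : Type*} [Group G] (a b : G) : G := a * b * a⁻¹ * b⁻¹

lemma com_inv {G : Type*} [Group G] (a b : G) : (com a b)⁻¹ = com b a := by
  unfold com; group

lemma com_eq_one {G : Type*} [Group G] {a b : G} (h : Commute a b) : com a b = 1 := by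
  unfold com; rw [h.eq]; group

@[simp] lemma com_one_left {G : Type*} [Group G] (b : G) : com 1 b = 1 := by
  unfold com; group

@[simp] lemma com_one_right {G : Type*} [Group G] (b : G) : com b 1 = 1 := by
  unfold com; group

/-- the key cancellation in commutators of products -/
lemma com_RX_SZ {G : Type*} [Group G] {R X S Z : G} (h2 : Commute X S)
    (h3 : Commute X Z) (h4 : Commute Z R) : com (R * X) (S * Z) = com R S := by
  unfold com
  have e1 : X * (S * Z) * X⁻¹ = S * Z := by
    rw [(h2.mul_right h3).eq]; group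
  have e2 : Z * R⁻¹ * Z⁻¹ = R⁻¹ := by
    rw [(h4.inv_right).eq]; group
  calc R * X * (S * Z) * (R * X)⁻¹ * (S * Z)⁻¹
      = R * (X * (S * Z) * X⁻¹) * R⁻¹ * (S * Z)⁻¹ := by group
    _ = R * S * (Z * R⁻¹ * Z⁻¹) * S⁻¹ := by rw [e1]; group
    _ = R * S * R⁻¹ * S⁻¹ := by rw [e2]

lemma com_RX_right {G : Type*} [Group G] {t R X : G} (h1 : Commute X t) :
    com t (R * X) = com t R := by
  unfold com
  have e2 : X * t⁻¹ * X⁻¹ = t⁻¹ := by
    rw [(h1.inv_right).eq]; group
  calc t * (R * X) * t⁻¹ * (R * X)⁻¹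
      = t * R * (X * t⁻¹ * X⁻¹) * R⁻¹ := by group
    _ = t * R * t⁻¹ * R⁻¹ := by rw [e2]

section Trans

variable {ι : Type*} [Fintype ι] [DecidableEq ι] {Λ : Type*} [Ring Λ]

/-- The matrix `1 + z E_{ab}`. -/
def tm (a b : ι) (z : Λ) : Matrix ι ι Λ := 1 + Matrix.single a b z

lemma tm_mul_same {a b : ι} (h : a ≠ b) (z z' : Λ) : tm a b z * tm a b z' = tm a b (z + z') := by
  unfold tm
  rw [add_mul, mul_add, mul_add, Matrix.single_mul_single_of_ne _ _ _ _ h.symm, Matrix.single_add]
  simp only [one_mul, mul_one, add_zero]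
  abel

lemma tm_zero (a b : ι) : tm a b (0 : Λ) = 1 := by
  simp [tm]

/-- The transvection as a unit (identity if `a = b`). -/
def T (a b : ι) (z : Λ) : (Matrix ι ι Λ)ˣ :=
  if h : a ≠ b then
    ⟨tm a b z, tm a b (-z), by rw [tm_mul_same h]; simp [tm_zero], by
      rw [tm_mul_same h]; simp [tm_zero]⟩
  else 1

lemma T_val {a b : ι} (h : a ≠ b) (z : Λ) : ((T a b z : (Matrix ι ι Λ)ˣ) : Matrix ι ι Λ) = tm a b z := by
  rw [T, dif_pos h]

lemma T_zero (a b : ι) : T a b (0 : Λ) = 1 := by
  by_cases h : a ≠ b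
  · ext1; rw [T_val h, tm_zero]; rfl
  · rw [T, dif_neg h]

lemma T_add (a b : ι) (z z' : Λ) : T a b z * T a b z' = T a b (z + z') := by
  by_cases h : a ≠ b
  · ext1; rw [Units.val_mul, T_val h, T_val h, T_val h, tm_mul_same h]
  · simp [T, dif_neg h]

lemma T_commute {a b c d : ι} (h1 : b ≠ c) (h2 : d ≠ a) (z z' : Λ) :
    Commute (T a b z) (T c d z') := by
  by_cases hab : a ≠ b
  · by_cases hcd : c ≠ d
    · unfold Commute SemiconjBy
      ext1
      rw [Units.val_mul, Units.val_mul, T_val hab, T_val hcd]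
      unfold tm
      rw [add_mul, mul_add, mul_add, add_mul, mul_add, mul_add,
        Matrix.single_mul_single_of_ne _ _ _ _ h1, Matrix.single_mul_single_of_ne _ _ _ _ h2]
      simp only [one_mul, mul_one, add_zero]
      abel
    · rw [T, T, dif_neg hcd]; exact Commute.one_right _
  · rw [T, dif_neg hab]; exact Commute.one_left _

lemma T_mul_T {a b c : ι} (hab : a ≠ b) (hbc : b ≠ c) (hac : a ≠ c) (z z' : Λ) :
    T a b z * T b c z' = T a c (z * z') * (T b c z' * T a b z) := by
  ext1
  simp only [Units.val_mul, T_val hab, T_val hbc, T_val hac, tm]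
  simp only [add_mul, mul_add, one_mul, mul_one, Matrix.single_mul_single_same,
    Matrix.single_mul_single_of_ne _ _ _ _ hac.symm, Matrix.single_mul_single_of_ne _ _ _ _ hbc.symm,
    add_zero]
  abel_nf

variable [CharP Λ 2]

lemma T_mul_self (a b : ι) (z : Λ) : T a b z * T a b z = 1 := by
  rw [T_add, CharTwo.add_self_eq_zero, T_zero]

lemma T_inv (a b : ι) (z : Λ) : (T a b z)⁻¹ = T a b z :=
  inv_eq_of_mul_eq_one_right (T_mul_self a b z)

lemma T_comm {a b c : ι} (hab : a ≠ b) (hbc : b ≠ c) (hac : a ≠ c) (z z' : Λ) :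
    com (T a b z) (T b c z') = T a c (z * z') := by
  rw [com, T_mul_T hab hbc hac]
  group

lemma T_comm' {a b c : ι} (hab : a ≠ b) (hbc : b ≠ c) (hac : a ≠ c) (z z' : Λ) :
    com (T b c z') (T a b z) = T a c (z * z') := by
  rw [← com_inv, T_comm hab hbc hac, T_inv]

end Trans

section Perm

variable {ι : Type*} [Fintype ι] [DecidableEq ι] {Λ : Type*} [Ring Λ]

/-- permutation matrix -/
def pmat (Λ : Type*) [Ring Λ] (σ : Equiv.Perm ι) : Matrix ι ι Λ :=
  Matrix.of fun i j => if i = σ j then 1 else 0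

lemma pmat_mul (σ τ : Equiv.Perm ι) : pmat Λ σ * pmat Λ τ = pmat Λ (σ * τ) := by
  ext i j
  simp only [pmat, Matrix.mul_apply, Matrix.of_apply, Equiv.Perm.coe_mul, Function.comp]
  rw [Finset.sum_eq_single (τ j)]
  · simp
  · intro b _ hb; simp [hb]
  · simp

lemma pmat_one : pmat Λ (1 : Equiv.Perm ι) = 1 := by
  ext i j
  simp [pmat, Matrix.one_apply]

/-- permutation matrices as units -/
def P (σ : Equiv.Perm ι) : (Matrix ι ι Λ)ˣ :=
  ⟨pmat Λ σ, pmat Λ σ⁻¹, by rw [pmat_mul, mul_inv_cancel, pmat_one],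
    by rw [pmat_mul, inv_mul_cancel, pmat_one]⟩

lemma P_mul (σ τ : Equiv.Perm ι) : (P (σ * τ) : (Matrix ι ι Λ)ˣ) = P σ * P τ := by
  ext1; simp only [P, Units.val_mul]; rw [pmat_mul]

lemma P_one : (P (1 : Equiv.Perm ι) : (Matrix ι ι Λ)ˣ) = 1 := by
  ext1; simp only [P, Units.val_one]; rw [pmat_one]

lemma pmat_mul_single (σ : Equiv.Perm ι) (a b : ι) (z : Λ) :
    pmat Λ σ * Matrix.single a b z = Matrix.single (σ a) b z := by
  ext i j
  simp only [pmat, Matrix.mul_apply, Matrix.of_apply, Matrix.single_apply]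
  rw [Finset.sum_eq_single a]
  · by_cases h1 : i = σ a <;> by_cases h2 : b = j <;> simp [h1, h2, eq_comm]
  · intro c _ hc; simp [Ne.symm hc]
  · simp

lemma single_mul_pmat (σ : Equiv.Perm ι) (a b : ι) (z : Λ) :
    Matrix.single a (σ b) z * pmat Λ σ = Matrix.single a b z := by
  ext i j
  simp only [pmat, Matrix.mul_apply, Matrix.of_apply, Matrix.single_apply]
  rw [Finset.sum_eq_single (σ b)]
  · by_cases h1 : a = i <;> by_cases h2 : b = j <;> simp [h1, h2]
  · intro c _ hc; simp [Ne.symm hc]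
  · simp

lemma P_conj_T (σ : Equiv.Perm ι) (a b : ι) (z : Λ) :
    P σ * T a b z = T (σ a) (σ b) z * P σ := by
  by_cases h : a = b
  · subst h; simp [T]
  · have h' : σ a ≠ σ b := fun h' => h (σ.injective h')
    ext1
    rw [Units.val_mul, Units.val_mul, T_val h, T_val h']
    simp only [P, tm, mul_add, add_mul, mul_one, one_mul, pmat_mul_single, single_mul_pmat]

variable [CharP Λ 2]

lemma P_swap {a b : ι} (h : a ≠ b) :
    (P (Equiv.swap a b) : (Matrix ι ι Λ)ˣ) = T a b 1 * T b a 1 * T a b 1 := by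
  ext1
  rw [Units.val_mul, Units.val_mul, T_val h, T_val h.symm]
  simp only [tm, P]
  simp only [add_mul, mul_add, mul_one, one_mul, Matrix.single_mul_single_same,
    Matrix.single_mul_single_of_ne _ _ _ _ h, Matrix.single_mul_single_of_ne _ _ _ _ h.symm,
    Matrix.single_mul_single_same, add_zero, zero_mul]
  have h2 : Matrix.single a b (1 : Λ) + Matrix.single a b (1 : Λ) = 0 := by
    rw [← Matrix.single_add, CharTwo.add_self_eq_zero]; simp
  ext i j
  simp only [pmat, Matrix.of_apply, Matrix.add_apply, Matrix.one_apply, Matrix.single_apply]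
  have e2 : (1 : Λ) + 1 = 0 := CharTwo.add_self_eq_zero _
  by_cases hja : j = a
  · subst hja
    simp only [Equiv.swap_apply_left]
    by_cases hib : i = b
    · subst hib; simp [h, h.symm]
    · by_cases hij : i = j
      · subst hij; simp [h, h.symm, e2]
      · simp [hib, Ne.symm hib, hij, Ne.symm hij]
  · by_cases hjb : j = b
    · subst hjb
      simp only [Equiv.swap_apply_right]
      by_cases hia : i = a
      · subst hia; simp [h, h.symm, e2]
      · by_cases hij : i = j
        · subst hij; simp [h, h.symm, e2]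
        · simp [hia, Ne.symm hia, hij, Ne.symm hij]
    · rw [Equiv.swap_apply_of_ne_of_ne hja hjb]
      simp [hja, hjb, Ne.symm hja, Ne.symm hjb]

end Perm

section Shift

variable {n : ℕ} [NeZero n] {Λ : Type*} [Ring Λ]

/-- the powers of the cyclic permutation matrix -/
def gg (m : ZMod n) : (Matrix (ZMod n) (ZMod n) Λ)ˣ := P (Equiv.subRight m)

lemma gg_add (m m' : ZMod n) : (gg (m + m') : (Matrix (ZMod n) (ZMod n) Λ)ˣ) = gg m * gg m' := by
  unfold gg
  rw [← P_mul]
  congr 1
  ext i
  simp only [Equiv.subRight_apply, Equiv.Perm.coe_mul, Function.comp]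
  rw [add_comm m m', sub_sub]

lemma gg_zero : (gg (0 : ZMod n) : (Matrix (ZMod n) (ZMod n) Λ)ˣ) = 1 := by
  unfold gg
  rw [← P_one]
  congr 1
  ext i
  simp

lemma gg_neg (m : ZMod n) : (gg (-m) : (Matrix (ZMod n) (ZMod n) Λ)ˣ) = (gg m)⁻¹ := by
  symm
  rw [inv_eq_iff_mul_eq_one, ← gg_add, add_neg_cancel, gg_zero]

lemma gg_zpow (k : ℤ) (m : ZMod n) :
    (gg m : (Matrix (ZMod n) (ZMod n) Λ)ˣ) ^ k = gg ((k : ZMod n) * m) := by
  induction k using Int.induction_on with
  | zero => simp [gg_zero]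
  | succ i ih => rw [_root_.zpow_add_one, ih, ← gg_add]; congr 1; push_cast; ring
  | pred i ih => rw [_root_.zpow_sub_one, ih, ← gg_neg, ← gg_add]; congr 1; push_cast; ring

/-- conjugation by the cyclic permutation matrix shifts the positions -/
lemma gg_conj_T (m a b : ZMod n) (z : Λ) :
    (gg m)⁻¹ * T a b z * gg m = T (a + m) (b + m) z := by
  have := P_conj_T (Equiv.subRight m) (a + m) (b + m) z
  simp only [Equiv.subRight_apply, add_sub_cancel_right] at this
  unfold gg
  rw [mul_assoc, ← this]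
  simp [mul_assoc]

end Shift

end MP57bda5
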