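import Pool.Agent.Lib.MP_57bda5_lc.Nonsolvable
import Pool.Agent.Lib.MP_57bda5_lc.Computab

set_option autoImplicit false

/-!
Undecidability of functional completeness from the existence of model groups.
-/

namespace Pool.Agent.Lib.MP_57bda5_lc

universe u

/-- Every Diophantine set reduces to completeness on every group. -/
theorem reduction (hm : ∀ (k : ℕ) (κ : ℤ → (Fin k → ℤ) → Prop),
      (∀ J D, κ J D → J ≠ 0 ∧ ∀ i, D i ≠ 0) → HasModel k κ)
    {S : ℕ → Prop} (hS : Dioph {v : Vector3 ℕ 1 | S (Vector3.nth (Fin2.fz) v)}) :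
    ∃ f : ℕ → List GWord, Computable f ∧ ∀ n, S n ↔ CompleteOnEveryGroup.{u} (f n) := by
  obtain ⟨M⟩ := exists_machine hS
  obtain ⟨G, _, x, y, ν, W, hν, hx, hxy, hW, hWP⟩ := hm M.k (kappa M) (kappa_ne M)
  refine ⟨wordList M W ν, computable_wordList M W ν, fun n => ⟨fun hn => ?_, fun h => ?_⟩⟩
  · exact fun G _ => complete_of_closed
      (fun R hne hR => closed_subgroup M W ν n hW hn R hne hR) G
  · by_contra hn
    have h1 := closed_twoCyclic M hν hx hW hWP n hn
    have h2 := closedUnder_equiv (MulEquiv.ulift : ULift.{u} G ≃* G).symm h1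
    refine not_complete_of_closed h2 (x := ULift.up x) (y := ULift.up y)
      ⟨x, Or.inl ⟨1, (zpow_one x).symm⟩, rfl⟩ ⟨y, Or.inr ⟨1, (zpow_one y).symm⟩, rfl⟩ ?_
      (h (ULift.{u} G))
    rintro ⟨g, hg, hg'⟩
    have h3 : g = x * y := congrArg ULift.down hg'
    exact mul_not_mem_twoCyclic hxy (h3 ▸ hg)

/-- Functional completeness on every group is undecidable. -/
theorem undecidable (hm : ∀ (k : ℕ) (κ : ℤ → (Fin k → ℤ) → Prop),
      (∀ J D, κ J D → J ≠ 0 ∧ ∀ i, D i ≠ 0) → HasModel k κ) :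
    ¬ ComputablePred fun B : List GWord => CompleteOnEveryGroup.{u} B := by
  intro h
  obtain ⟨S, hS, hS'⟩ := Pool.Agent.Lib.MRDP.exists_dioph_not_computable
  obtain ⟨f, hf, hfS⟩ := reduction.{u} hm hS
  apply hS'
  obtain ⟨d, hd⟩ := h
  refine ComputablePred.of_eq (p := fun n => CompleteOnEveryGroup.{u} (f n)) ?_
    (fun n => (hfS n).symm)
  exact ⟨fun n => d (f n), hd.comp hf⟩

end Pool.Agent.Lib.MP_57bda5_lc
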