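import Pool.Agent.Lib.MP_57bda5_lc.Closed
import Pool.Agent.Lib.MP_57bda5_lc.Machine

set_option autoImplicit false

/-!
The list of words attached to a machine and an input.
-/

namespace Pool.Agent.Lib.MP_57bda5_lc

/-- Conjugate of `g` by `a`. -/
def conjBy {G : Type*} [Group G] (a g : G) : G := a⁻¹ * g * a

theorem conjBy_mul_left {G : Type*} [Group G] (a b g : G) :
    conjBy (a * b) g = conjBy b (conjBy a g) := by
  simp [conjBy, mul_assoc]

theorem map_conjBy {G H : Type*} [Group G] [Group H] (φ : G →* H) (a g : G) :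
    φ (conjBy a g) = conjBy (φ a) (φ g) := by
  simp [conjBy]

theorem conjBy_of_comm {G : Type*} [Group G] {a g : G} (h : Commute a g) : conjBy a g = g := by
  unfold conjBy
  rw [mul_assoc, ← h.eq, inv_mul_cancel_left]

/-- Exponents of the frame letters. -/
def frameExp (o : Option (Fin 3)) : ℕ := o.elim 0 (fun i => 2 ^ (i : ℕ))

/-- Index set of the letters of the fixed word. -/
abbrev WIdx (k : ℕ) : Type := Option (Fin 3) ⊕ Fin k

/-- The configuration word. -/
def qWord {G : Type*} [Group G] {k : ℕ} (W : FreeGroup (WIdx k)) (V : G) (c : Fin k → G) (u : G) :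
    G :=
  FreeGroup.lift (Sum.elim (fun o => conjBy (V ^ frameExp o) u) (fun i => conjBy (c i) u)) W

theorem map_qWord {G H : Type*} [Group G] [Group H] (φ : G →* H) {k : ℕ} (W : FreeGroup (WIdx k))
    (V : G) (c : Fin k → G) (u : G) :
    φ (qWord W V c u) = qWord W (φ V) (fun i => φ (c i)) (φ u) := by
  unfold qWord
  have : (φ.comp (FreeGroup.lift (Sum.elim (fun o => conjBy (V ^ frameExp o) u)
      (fun i => conjBy (c i) u)))) = FreeGroup.lift (Sum.elim (fun o => conjBy (φ V ^ frameExp o)
        (φ u)) (fun i => conjBy (φ (c i)) (φ u))) := by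
    ext i
    rcases i with o | i <;> simp [map_conjBy]
  rw [← this]
  rfl

/-- If the base letter commutes with all conjugators, the configuration word is trivial. -/
theorem qWord_eq_one {G : Type} [Group G] {k : ℕ} {W : FreeGroup (WIdx k)}
    (hW : ∀ (H : Type) [Group H] (h : H), FreeGroup.lift (fun _ => h) W = 1) {V : G} {c : Fin k → G}
    {u : G} (hV : Commute V u) (hc : ∀ i, Commute (c i) u) : qWord W V c u = 1 := by
  unfold qWord
  have : (Sum.elim (fun o => conjBy (V ^ frameExp o) u) (fun i => conjBy (c i) u)) =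
      fun _ : WIdx k => u := by
    funext i
    rcases i with o | i
    · exact conjBy_of_comm (hV.pow_left _)
    · exact conjBy_of_comm (hc i)
  rw [this]
  exact hW G u

/-- Value of an affine form in a group. -/
def LinExp.gval {G : Type*} [Group G] (V : G) (L : ℕ → G) : LinExp ℕ → G
  | .zero => 1
  | .one => V
  | .var i => L i
  | .add a b => a.gval V L * b.gval V L

theorem map_gval {G H : Type*} [Group G] [Group H] (φ : G →* H) (V : G) (L : ℕ → G)
    (a : LinExp ℕ) : φ (a.gval V L) = a.gval (φ V) (fun i => φ (L i)) := by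
  induction a with
  | zero => simp [LinExp.gval]
  | one => rfl
  | var i => rfl
  | add a b iha ihb => simp [LinExp.gval, iha, ihb]

/-- In a cyclic subgroup the group value of an affine form is given by the integer value. -/
theorem gval_zpow {G : Type*} [Group G] (y : G) (J : ℤ) (m : ℕ → ℤ) (a : LinExp ℕ) :
    a.gval (y ^ J) (fun i => y ^ (m i)) = y ^ (a.eval J m) := by
  induction a with
  | zero => simp [LinExp.gval, LinExp.eval]
  | one => rfl
  | var i => rfl
  | add a b iha ihb => simp [LinExp.gval, LinExp.eval, iha, ihb, zpow_add]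

/-- The configuration word of a pattern. -/
def qPat {G : Type*} [Group G] {k : ℕ} (W : FreeGroup (WIdx k)) (ν : ℕ) (a : Fin k → LinExp ℕ)
    (u v : G) (l : ℕ → G) : G :=
  qWord W (v ^ ν) (fun i => v ^ ν * ((a i).gval (v ^ ν) (fun r => l r ^ ν)) ^ 2) u

theorem map_qPat {G H : Type*} [Group G] [Group H] (φ : G →* H) {k : ℕ} (W : FreeGroup (WIdx k))
    (ν : ℕ) (a : Fin k → LinExp ℕ) (u v : G) (l : ℕ → G) :
    φ (qPat W ν a u v l) = qPat W ν a (φ u) (φ v) (fun r => φ (l r)) := by
  unfold qPat
  rw [map_qWord]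
  simp [map_gval]

/-- The formal configuration word of a pattern: `u`, `v`, `l r` are the variables `0, 1, r + 2`. -/
def qForm {k : ℕ} (W : FreeGroup (WIdx k)) (ν : ℕ) (a : Fin k → LinExp ℕ) : FreeGroup ℕ :=
  qPat W ν a (FreeGroup.of 0) (FreeGroup.of 1) (fun r => FreeGroup.of (r + 2))

theorem lift_qForm {G : Type*} [Group G] (ρ : ℕ → G) {k : ℕ} (W : FreeGroup (WIdx k)) (ν : ℕ)
    (a : Fin k → LinExp ℕ) :
    FreeGroup.lift ρ (qForm W ν a) = qPat W ν a (ρ 0) (ρ 1) (fun r => ρ (r + 2)) := by
  unfold qForm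
  rw [map_qPat]
  simp

/-- The relators of a machine. -/
def relators {S : ℕ → Prop} (M : Machine S) (W : FreeGroup (WIdx M.k)) (ν : ℕ) :
    List (FreeGroup ℕ) :=
  M.rules.map (fun r => qForm W ν r.1 * (qForm W ν r.2)⁻¹) ++ [qForm W ν M.fin]

/-- The words attached to a relator. -/
def relWords (g : FreeGroup ℕ) : List GWord :=
  [(FreeGroup.of 0 * (FreeGroup.of 1)⁻¹ * FreeGroup.map (· + 2) g * FreeGroup.of 1).toWord,
   (FreeGroup.of 0 * (FreeGroup.of 1)⁻¹ * (FreeGroup.map (· + 2) g)⁻¹ * FreeGroup.of 1).toWord]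

/-- Exponents in the start configuration. -/
def startExp {k : ℕ} (ν : ℕ) (i0 : Fin k) (n : ℕ) : WIdx k → ℕ
  | .inl o => ν * frameExp o
  | .inr i => if i = i0 then ν * (2 * n + 1) else ν

/-- A conjugated letter as a list. -/
def startLetter {k : ℕ} (ν : ℕ) (i0 : Fin k) (z w : ℕ) (n : ℕ) (l : WIdx k × Bool) : GWord :=
  List.replicate (startExp ν i0 n l.1) (w, false) ++
    ((z, l.2) :: List.replicate (startExp ν i0 n l.1) (w, true))

/-- The multiplication word. -/
def mulWord {k : ℕ} (W : FreeGroup (WIdx k)) (ν : ℕ) (i0 : Fin k) (n : ℕ) : GWord :=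
  ((0, true) :: (W⁻¹).toWord.flatMap (startLetter ν i0 0 1 n)) ++
    ((1, true) :: (W⁻¹).toWord.flatMap (startLetter ν i0 1 0 n))

/-- The list attached to the input `n`. -/
def wordList {S : ℕ → Prop} (M : Machine S) (W : FreeGroup (WIdx M.k)) (ν : ℕ) (n : ℕ) :
    List GWord :=
  [(0, false)] :: mulWord W ν M.i0 n :: (relators M W ν).flatMap relWords

/-- The start word evaluated. -/
def qStart {G : Type*} [Group G] {k : ℕ} (W : FreeGroup (WIdx k)) (ν : ℕ) (i0 : Fin k) (n : ℕ)
    (z w : G) : G :=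
  FreeGroup.lift (fun i => conjBy (w ^ startExp ν i0 n i) z) W

theorem eval_replicate {G : Type*} [Group G] (ρ : ℕ → G) (w e : ℕ) :
    GWord.eval ρ (List.replicate e (w, true)) = ρ w ^ e := by
  induction e with
  | zero => simp [GWord.eval]
  | succ e ih => rw [List.replicate_succ, GWord.eval, ih, pow_succ']

theorem eval_replicate_false {G : Type*} [Group G] (ρ : ℕ → G) (w e : ℕ) :
    GWord.eval ρ (List.replicate e (w, false)) = (ρ w ^ e)⁻¹ := by
  induction e with
  | zero => simp [GWord.eval]
  | succ e ih => rw [List.replicate_succ, GWord.eval, ih, pow_succ, mul_inv_rev]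

theorem eval_flatMap {G : Type*} [Group G] (ρ : ℕ → G) {k : ℕ} (ν : ℕ) (i0 : Fin k) (n z w : ℕ)
    (l : List (WIdx k × Bool)) :
    GWord.eval ρ (l.flatMap (startLetter ν i0 z w n)) =
      FreeGroup.lift (fun i => conjBy (ρ w ^ startExp ν i0 n i) (ρ z)) (FreeGroup.mk l) := by
  induction l with
  | nil => simp [GWord.eval]
  | cons a l ih =>
    rw [List.flatMap_cons, eval_append, ih]
    have h1 : FreeGroup.mk (a :: l) = FreeGroup.mk [a] * FreeGroup.mk l := by
      rw [FreeGroup.mul_mk]; rfl
    rw [h1, map_mul]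
    congr 1
    obtain ⟨i, b⟩ := a
    unfold startLetter
    rw [eval_append]
    cases b
    · rw [GWord.eval, eval_replicate, eval_replicate_false]
      simp [conjBy, mul_assoc]
    · rw [GWord.eval, eval_replicate, eval_replicate_false]
      simp [conjBy, mul_assoc]

theorem eval_mulWord {G : Type*} [Group G] (ρ : ℕ → G) {k : ℕ} (W : FreeGroup (WIdx k)) (ν : ℕ)
    (i0 : Fin k) (n : ℕ) :
    GWord.eval ρ (mulWord W ν i0 n) =
      ρ 0 * (qStart W ν i0 n (ρ 0) (ρ 1))⁻¹ * (ρ 1 * (qStart W ν i0 n (ρ 1) (ρ 0))⁻¹) := by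
  unfold mulWord qStart
  rw [eval_append, GWord.eval, GWord.eval, eval_flatMap, eval_flatMap, FreeGroup.mk_toWord,
    map_inv, map_inv]

/-- Description of the subsets closed under the list. -/
theorem closed_wordList {S : ℕ → Prop} (M : Machine S) (W : FreeGroup (WIdx M.k)) (ν n : ℕ)
    {G : Type*} [Group G] (R : Set G) :
    ClosedUnder (wordList M W ν n) R ↔
      (∀ z ∈ R, z⁻¹ ∈ R) ∧
      (∀ z ∈ R, ∀ w ∈ R, z * (qStart W ν M.i0 n z w)⁻¹ * (w * (qStart W ν M.i0 n w z)⁻¹) ∈ R) ∧
      (∀ g ∈ relators M W ν, ∀ ρ : ℕ → G, (∀ i, ρ i ∈ R) → ∀ t ∈ R, ∀ p ∈ R,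
        t * p⁻¹ * FreeGroup.lift ρ g * p ∈ R ∧ t * p⁻¹ * (FreeGroup.lift ρ g)⁻¹ * p ∈ R) := by
  constructor
  · intro h
    refine ⟨fun z hz => ?_, fun z hz w hw => ?_, fun g hg ρ hρ t ht p hp => ?_⟩
    · have := h [(0, false)] (by simp [wordList]) (fun _ => z) (fun _ => hz)
      simpa [GWord.eval] using this
    · have := h (mulWord W ν M.i0 n) (by simp [wordList]) (fun i => if i = 0 then z else w)
        (fun i => by by_cases h : i = 0 <;> simp [h, hz, hw])
      rw [eval_mulWord] at this
      simpa using this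
    · let ρ' : ℕ → G := fun i => if i = 0 then t else if i = 1 then p else ρ (i - 2)
      have hρ' : ∀ i, ρ' i ∈ R := fun i => by
        simp only [ρ']
        split_ifs
        · exact ht
        · exact hp
        · exact hρ _
      have h1 : FreeGroup.lift ρ' (FreeGroup.map (· + 2) g) = FreeGroup.lift ρ g := by
        have : (FreeGroup.lift ρ').comp (FreeGroup.map (· + 2)) = FreeGroup.lift ρ := by
          ext i; simp [ρ']
        rw [← this]; rfl
      have h2 : ∀ w ∈ relWords g, w.eval ρ' ∈ R := fun w hw =>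
        h w (by
          simp only [wordList, List.mem_cons, List.mem_flatMap]
          exact Or.inr (Or.inr ⟨g, hg, hw⟩)) ρ' hρ'
      constructor
      · have := h2 _ (by unfold relWords; exact List.mem_cons_self)
        rw [eval_eq_lift, FreeGroup.mk_toWord] at this
        simpa [h1, ρ'] using this
      · have := h2 _ (by unfold relWords; exact List.mem_cons_of_mem _ List.mem_cons_self)
        rw [eval_eq_lift, FreeGroup.mk_toWord] at this
        simpa [h1, ρ'] using this
  · rintro ⟨h1, h2, h3⟩ b hb ρ hρ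
    simp only [wordList, List.mem_cons, List.mem_flatMap] at hb
    rcases hb with rfl | rfl | ⟨g, hg, hb⟩
    · simpa [GWord.eval] using h1 _ (hρ 0)
    · rw [eval_mulWord]
      exact h2 _ (hρ 0) _ (hρ 1)
    · have h4 := h3 g hg (fun i => ρ (i + 2)) (fun i => hρ _) _ (hρ 0) _ (hρ 1)
      have h5 : FreeGroup.lift ρ (FreeGroup.map (· + 2) g) =
          FreeGroup.lift (fun i => ρ (i + 2)) g := by
        have : (FreeGroup.lift ρ).comp (FreeGroup.map (· + 2)) =
            FreeGroup.lift (fun i => ρ (i + 2)) := by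
          ext i; simp
        rw [← this]; rfl
      unfold relWords at hb
      simp only [List.mem_cons, List.not_mem_nil, or_false] at hb
      rcases hb with rfl | rfl
      · rw [eval_eq_lift, FreeGroup.mk_toWord]
        simpa [h5] using h4.1
      · rw [eval_eq_lift, FreeGroup.mk_toWord]
        simpa [h5] using h4.2

end Pool.Agent.Lib.MP_57bda5_lc
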